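import Pool.Agent.Helper53.CL.Tab
import Pool.Agent.Helper58.Equiv

set_option autoImplicit false

/-! Cook's theorem for stack programs: clauses with three literals. -/

namespace Pool.Agent.Helper53.CL

open Pool.Agent.Helper58 Function

/-! ### more polynomial time functions -/

section more

variable {α β γ : Type} [Enc α] [Enc β] [Enc γ]

@[fun_prop] theorem ptf_mul {m n : γ → ℕ} (hm : PTf m) (hn : PTf n) : PTf (fun x => m x * n x) := by
  have : PTf (fun x => ((List.replicate (m x) ()).flatMap (fun _ => List.replicate (n x) ())).length) := by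
    fun_prop
  refine this.congr (fun x => ?_)
  simp [List.length_flatMap]

theorem ptf_pow {m : γ → ℕ} (hm : PTf m) (k : ℕ) : PTf (fun x => m x ^ k) := by
  induction k with
  | zero => simpa using PTf.const (α := γ) 1
  | succ k ih =>
    have : PTf (fun x => m x ^ k * m x) := by fun_prop
    exact this.congr (fun x => pow_succ _ _)

theorem ptf_sz {f : γ → α} (hf : PTf f) : PTf (fun x => sz (f x)) := by
  have : PTf (fun x => (enc (f x)).code.length) := PTf.length (PTf.code hf)
  exact this

/-- concatenation of finitely many lists -/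
theorem ptf_flatMap_range {g : ℕ → γ → List β} (hg : ∀ q, PTf (g q)) (n : ℕ) :
    PTf (fun x => (List.range n).flatMap (fun q => g q x)) := by
  induction n with
  | zero => exact (PTf.const []).congr (fun x => by simp)
  | succ n ih =>
    have : PTf (fun x => (List.range n).flatMap (fun q => g q x) ++ g n x) := by
      have := hg n
      fun_prop
    refine this.congr (fun x => ?_)
    rw [List.range_succ, List.flatMap_append]
    simp

end more

/-! ### the clauses are polynomial time computable -/

section ptf

variable {γ : Type} [Enc γ]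

@[fun_prop] theorem ptf_ctl {t q : γ → ℕ} (ht : PTf t) (hq : PTf q) :
    PTf (fun x => ctl (t x) (q x)) := by unfold ctl; fun_prop

@[fun_prop] theorem ptf_cell {t k i a : γ → ℕ} (ht : PTf t) (hk : PTf k) (hi : PTf i) (ha : PTf a) :
    PTf (fun x => cell (t x) (k x) (i x) (a x)) := by unfold cell; fun_prop

@[fun_prop] theorem ptf_unit {p : γ → Atom} (hp : PTf p) : PTf (fun x => unit (p x)) := by
  unfold unit; fun_prop
@[fun_prop] theorem ptf_nunit {p : γ → Atom} (hp : PTf p) : PTf (fun x => nunit (p x)) := by
  unfold nunit; fun_prop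
@[fun_prop] theorem ptf_or2 {p q : γ → Atom} (hp : PTf p) (hq : PTf q) :
    PTf (fun x => or2 (p x) (q x)) := by unfold or2; fun_prop
@[fun_prop] theorem ptf_imp1 {p q : γ → Atom} (hp : PTf p) (hq : PTf q) :
    PTf (fun x => imp1 (p x) (q x)) := by unfold imp1; fun_prop
@[fun_prop] theorem ptf_imp2 {p q r : γ → Atom} (hp : PTf p) (hq : PTf q) (hr : PTf r) :
    PTf (fun x => imp2 (p x) (q x) (r x)) := by unfold imp2; fun_prop

@[fun_prop] theorem ptf_mvc {t q k i j : γ → ℕ} (ht : PTf t) (hq : PTf q) (hk : PTf k) (hi : PTf i)
    (hj : PTf j) : PTf (fun x => mvc (t x) (q x) (k x) (i x) (j x)) := by unfold mvc; fun_prop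

@[fun_prop] theorem ptf_cpys {t q L : γ → ℕ} (N k₀ : ℕ) (ht : PTf t) (hq : PTf q) (hL : PTf L) :
    PTf (fun x => cpys (t x) (q x) N (L x) k₀) := by unfold cpys; fun_prop

theorem ptf_rules {t L : γ → ℕ} (N q : ℕ) (ht : PTf t) (hL : PTf L) (i : Ins) :
    PTf (fun x => rules N (t x) q (L x) i) := by
  cases i with
  | jmp q' => unfold rules; fun_prop
  | push k b q' => unfold rules; fun_prop
  | pop k e f g => unfold rules; fun_prop

/-! ### the whole set of clauses -/

/-- the clauses of all instructions at all times before `M` -/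
def tab (P : List Ins) (B M L : ℕ) : List Cl :=
  (List.range M).flatMap fun t => (List.range B).flatMap fun q => rules B t q L (ins P q)

/-- at time `0` the stack `k` is the list `l` -/
def initFix (k L : ℕ) (l : List Bool) : List Cl :=
  (l.zipIdx.map fun p => unit (cell 0 k p.2 (bif p.1 then 2 else 1))) ++
    (List.range L).map fun i => unit (cell 0 k (l.length + i) 0)

/-- at time `0` the stack `k` has length `n` -/
def initFree (k L n : ℕ) : List Cl :=
  ((List.range n).map fun i => or2 (cell 0 k i 1) (cell 0 k i 2)) ++
    (List.range L).map fun i => unit (cell 0 k (n + i) 0)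

/-- All clauses: `P` is the program, started with `[false]` on stack 0, an unknown word of length
`n` on stack 1 and `W` on stack 2, and run for `M` steps. -/
def cnf (P : List Ins) (B M L n : ℕ) (W : List Bool) : List Cl :=
  (unit (ctl 0 0) :: nunit (cell M 0 0 1) :: tab P B M L) ++
    (initFix 0 L [false] ++ (initFree 1 L n ++ (initFix 2 L W ++
      (List.range B).flatMap fun k => initFix (k + 3) L [])))

theorem ptf_cnf {M L n : γ → ℕ} {W : γ → List Bool} (P : List Ins) (B : ℕ) (hM : PTf M)
    (hL : PTf L) (hn : PTf n) (hW : PTf W) : PTf (fun x => cnf P B (M x) (L x) (n x) (W x)) := by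
  have h1 : PTf (fun x => tab P B (M x) (L x)) := by
    unfold tab
    refine PTf.flatMap (PTf.range hM) ?_
    exact ptf_flatMap_range (fun q => ptf_rules B q (PTf.snd PTf.id) (PTf.comp hL (PTf.fst PTf.id)) _) B
  have h2 : ∀ k : ℕ, ∀ {l : γ → List Bool}, PTf l → PTf (fun x => initFix k (L x) (l x)) := by
    intro k l hl
    unfold initFix
    fun_prop
  have h3 : PTf (fun x => initFree 1 (L x) (n x)) := by unfold initFree; fun_prop
  have h4 : PTf (fun x => (List.range B).flatMap fun k => initFix (k + 3) (L x) []) :=
    ptf_flatMap_range (g := fun k x => initFix (k + 3) (L x) []) (fun q => h2 _ (PTf.const _)) B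
  have h5 := h2 0 (PTf.const [false])
  have h6 := h2 2 hW
  unfold cnf
  fun_prop

end ptf

section sem

/-- initial stacks -/
def s0 (z W : List Bool) : Stk := fun k =>
  if k = 0 then [false] else if k = 1 then z else if k = 2 then W else []

lemma sy_bif (b : Bool) : (bif b then 2 else 1) = sy (some b) := by cases b <;> rfl

lemma sat_initFix {Y : Atom → Bool} {k L : ℕ} {l : List Bool} :
    (∀ c ∈ initFix k L l, Sat Y c) ↔ (∀ i < l.length, Y (cell 0 k i (sy l[i]?)) = true) ∧
      ∀ i < L, Y (cell 0 k (l.length + i) 0) = true := by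
  unfold initFix
  simp only [List.mem_append, List.mem_map, List.mem_range]
  constructor
  · intro h
    refine ⟨fun i hi => ?_, fun i hi => ?_⟩
    · have := h _ (Or.inl ⟨(l[i], i), by simp [List.mem_zipIdx_iff_getElem?, List.getElem?_eq_getElem hi], rfl⟩)
      rw [sat_unit, sy_bif] at this
      rw [List.getElem?_eq_getElem hi]
      exact this
    · have := h _ (Or.inr ⟨i, hi, rfl⟩)
      rwa [sat_unit] at this
  · rintro ⟨h1, h2⟩ c (⟨⟨b, i⟩, hp, rfl⟩ | ⟨i, hi, rfl⟩)
    · rw [List.mem_zipIdx_iff_getElem?] at hp
      simp only at hp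
      rw [sat_unit, sy_bif]
      have hi : i < l.length := by
        by_contra hh
        rw [List.getElem?_eq_none (by omega)] at hp
        exact absurd hp (by simp)
      have := h1 i hi
      rw [hp] at this
      exact this
    · rw [sat_unit]; exact h2 i hi

lemma facts_initFix {Y : Atom → Bool} {k L : ℕ} {l : List Bool}
    (h : ∀ c ∈ initFix k L l, Sat Y c) : ∀ i < L, Y (cell 0 k i (sy l[i]?)) = true := by
  rw [sat_initFix] at h
  intro i hi
  by_cases hl : i < l.length
  · exact h.1 i hl
  · rw [List.getElem?_eq_none (by omega)]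
    have := h.2 (i - l.length) (by omega)
    rwa [show l.length + (i - l.length) = i by omega] at this

lemma sat_initFree {Y : Atom → Bool} {k L n : ℕ} :
    (∀ c ∈ initFree k L n, Sat Y c) ↔
      (∀ i < n, Y (cell 0 k i 1) = true ∨ Y (cell 0 k i 2) = true) ∧
      ∀ i < L, Y (cell 0 k (n + i) 0) = true := by
  unfold initFree
  simp only [List.mem_append, List.mem_map, List.mem_range]
  constructor
  · intro h
    refine ⟨fun i hi => ?_, fun i hi => ?_⟩
    · have := h _ (Or.inl ⟨i, hi, rfl⟩)
      rwa [sat_or2] at this
    · have := h _ (Or.inr ⟨i, hi, rfl⟩)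
      rwa [sat_unit] at this
  · rintro ⟨h1, h2⟩ c (⟨i, hi, rfl⟩ | ⟨i, hi, rfl⟩)
    · rw [sat_or2]; exact h1 i hi
    · rw [sat_unit]; exact h2 i hi

lemma step_bd {P : List Ins} {B N : ℕ} {c : ℕ × Stk} (h : (ins P c.1).Bd B N) :
    (step P c).1 < B := by
  obtain ⟨q, s⟩ := c
  unfold step
  simp only at h ⊢
  cases hi : ins P q with
  | jmp q' => rw [hi] at h; exact h
  | push k b q' => rw [hi] at h; exact h.2
  | pop k e f g =>
    rw [hi] at h
    simp only [stepI]
    split
    · exact h.2.1
    · exact h.2.2.1
    · exact h.2.2.2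

theorem cnf_sat {P : List Ins} {B : ℕ} (hB0 : 0 < B) (hB : ∀ q < B, (ins P q).Bd B B) {M L n : ℕ}
    (hL : M < L) (W : List Bool) : (∃ Y, ∀ c ∈ cnf P B M L n W, Sat Y c) ↔
      ∃ z : List Bool, z.length = n ∧ (((step P)^[M] (0, s0 z W)).2 0)[0]? ≠ some false := by
  constructor
  · rintro ⟨Y, hY⟩
    unfold cnf at hY
    simp only [List.mem_append, List.mem_cons, or_imp, forall_and, forall_eq] at hY
    obtain ⟨⟨h0, hM, htab⟩, hi0, hi1, hi2, hi3⟩ := hY
    rw [sat_unit] at h0
    rw [sat_nunit] at hM
    rw [sat_initFree] at hi1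
    let z : List Bool := (List.range n).map fun i => Y (cell 0 1 i 2)
    refine ⟨z, by simp [z], ?_⟩
    have hz : ∀ i < L, Y (cell 0 1 i (sy z[i]?)) = true := by
      intro i hi
      by_cases hin : i < n
      · have e : z[i]? = some (Y (cell 0 1 i 2)) := by
          simp [z, List.getElem?_map, List.getElem?_range hin]
        rw [e]
        cases hy : Y (cell 0 1 i 2) with
        | true => exact hy
        | false =>
          rcases hi1.1 i hin with h | h
          · exact h
          · rw [h] at hy; exact absurd hy (by simp)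
      · rw [List.getElem?_eq_none (by simp [z]; omega)]
        have := hi1.2 (i - n) (by omega)
        rwa [show n + (i - n) = i by omega] at this
    have key : ∀ t ≤ M, ((step P)^[t] (0, s0 z W)).1 < B ∧ Facts Y B L t ((step P)^[t] (0, s0 z W)) := by
      intro t
      induction t with
      | zero =>
        intro _
        refine ⟨hB0, h0, ?_⟩
        intro k hk i hi
        show Y (cell 0 k i (sy (s0 z W k)[i]?)) = true
        unfold s0
        by_cases hk0 : k = 0
        · subst hk0
          rw [if_pos rfl]
          exact facts_initFix hi0 i (by omega)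
        · rw [if_neg hk0]
          by_cases hk1 : k = 1
          · subst hk1
            rw [if_pos rfl]
            exact hz i (by omega)
          · rw [if_neg hk1]
            by_cases hk2 : k = 2
            · subst hk2
              rw [if_pos rfl]
              exact facts_initFix hi2 i (by omega)
            · rw [if_neg hk2]
              obtain ⟨j, rfl⟩ : ∃ j, k = j + 3 := ⟨k - 3, by omega⟩
              refine facts_initFix (fun c hc => ?_) i (by omega)
              apply hi3
              rw [List.mem_flatMap]
              exact ⟨j, List.mem_range.2 (by omega), hc⟩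
      | succ t ih =>
        intro ht
        obtain ⟨h1, h2⟩ := ih (by omega)
        rw [iterate_succ_apply']
        refine ⟨step_bd (hB _ h1), facts_step h2 (hB _ h1) (by omega) ?_⟩
        intro r hr
        apply htab
        unfold tab
        rw [List.mem_flatMap]
        refine ⟨t, List.mem_range.2 (by omega), ?_⟩
        rw [List.mem_flatMap]
        exact ⟨_, List.mem_range.2 h1, hr⟩
    intro hf
    have h1 := (key M le_rfl).2.2 0 hB0 0 (by omega)
    rw [hf] at h1
    exact hM h1
  · rintro ⟨z, hz, hf⟩
    let c : ℕ → ℕ × Stk := fun t => (step P)^[t] (0, s0 z W)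
    have hc : ∀ t, c (t + 1) = step P (c t) := fun t => iterate_succ_apply' _ _ _
    refine ⟨Yr c, ?_⟩
    have hfix : ∀ k L l, s0 z W k = l → ∀ r ∈ initFix k L l, Sat (Yr c) r := by
      intro k L l hl
      rw [sat_initFix]
      refine ⟨fun i hi => ?_, fun i hi => ?_⟩
      · rw [Yr_cell]
        show sy (s0 z W k)[i]? = _
        rw [hl]
      · rw [Yr_cell]
        show sy (s0 z W k)[l.length + i]? = _
        rw [hl, List.getElem?_eq_none (by omega)]
        rfl
    unfold cnf
    simp only [List.mem_append, List.mem_cons, or_imp, forall_and, forall_eq]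
    refine ⟨⟨?_, ?_, ?_⟩, hfix 0 L _ rfl, ?_, hfix 2 L _ rfl, ?_⟩
    · rw [sat_unit, Yr_ctl]; rfl
    · rw [sat_nunit, Yr_cell]
      intro h
      apply hf
      show ((c M).2 0)[0]? = some false
      rcases h1 : ((c M).2 0)[0]? with _ | _ | _ <;> rw [h1] at h <;> simp [sy] at h ⊢
    · intro r hr
      unfold tab at hr
      rw [List.mem_flatMap] at hr
      obtain ⟨t, _, hr⟩ := hr
      rw [List.mem_flatMap] at hr
      obtain ⟨q, _, hr⟩ := hr
      exact rules_run hc B t q L r hr
    · rw [sat_initFree]
      refine ⟨fun i hi => ?_, fun i hi => ?_⟩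
      · rw [Yr_cell, Yr_cell]
        show sy (z)[i]? = 1 ∨ sy z[i]? = 2
        rw [List.getElem?_eq_getElem (by omega)]
        cases z[i] with
        | true => exact Or.inr rfl
        | false => exact Or.inl rfl
      · rw [Yr_cell]
        show sy z[n + i]? = 0
        rw [List.getElem?_eq_none (by omega)]
        rfl
    · intro r hr
      rw [List.mem_flatMap] at hr
      obtain ⟨j, _, hr⟩ := hr
      exact hfix (j + 3) L [] (by simp [s0]) r hr

end sem

end Pool.Agent.Helper53.CL
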