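import Pool.Agent.Helper53.CL.Cnf

set_option autoImplicit false

/-! Cook's theorem: bounded search with a polynomial time test reduces to satisfiability. -/

namespace Pool.Agent.Helper53.CL

open Pool.Agent.Helper58 Function

variable {α : Type} [Enc α]

lemma sz_bits_le (z : List Bool) : sz z ≤ 4 * z.length + 1 := by
  induction z with
  | nil => simp [sz_lnil]
  | cons b z ih =>
    rw [sz_lcons, List.length_cons]
    have := sz_bool b
    omega

lemma s0_tr (z W : List Bool) :
    update (update (s0 z W) 0 (z.reverse.flatMap (fun b => true :: (enc b).code) ++ (s0 z W) 0)) 1 []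
      = fun k => if k = 0 then (enc z.reverse).code else if k = 2 then W else [] := by
  have h0 : (s0 z W) 0 = [false] := rfl
  rw [h0, flatMap_code]
  funext k
  by_cases h1 : k = 1
  · subst h1; simp
  · rw [update_of_ne h1]
    by_cases h2 : k = 0
    · subst h2; simp
    · rw [update_of_ne h2]
      unfold s0
      simp [h1, h2]

/-- **Cook's theorem.** -/
theorem cook {V : α × List Bool → Bool} (hV : PTf V) {n : α → ℕ} (hn : PTf n) :
    ∃ f : α → List Cl, PTf f ∧
      ∀ a, (∃ Y, ∀ c ∈ f a, Sat Y c) ↔ ∃ z : List Bool, z.length = n a ∧ V (a, z) = true := by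
  rw [ptf_iff] at hV
  obtain ⟨-, c, w, T, -, ⟨k, hk⟩, hr⟩ := hV
  let C : Cmd := Cmd.seq (tr 1 0 (fun b => true :: (enc b).code)) (Cmd.seq (mv 2 0) (c 0))
  obtain ⟨B, hB0, hB⟩ := exists_bound (prog C) 0
  let W : α → List Bool := fun a => (true :: (enc a).code).reverse
  let M : α → ℕ := fun a => len C * ((n a + 1) + ((sz a + 2) + (sz a + 4 * n a + 3) ^ k) + 1)
  have hW : PTf W := by
    have : PTf (fun a : α => (enc a).code) := PTf.code PTf.id
    show PTf (fun a : α => (true :: (enc a).code).reverse)
    fun_prop
  have hM : PTf M := by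
    have h1 : PTf (fun a : α => sz a) := ptf_sz PTf.id
    have h2 : PTf (fun a : α => (sz a + 4 * n a + 3) ^ k) := ptf_pow (by fun_prop) k
    show PTf (fun a : α => len C * ((n a + 1) + ((sz a + 2) + (sz a + 4 * n a + 3) ^ k) + 1))
    fun_prop
  refine ⟨fun a => cnf (prog C) B (M a) (M a + 1) (n a) (W a), ptf_cnf _ _ hM (by fun_prop) hn hW, ?_⟩
  intro a
  rw [cnf_sat hB0 hB (by omega)]
  have key : ∀ z : List Bool, z.length = n a →
      ((step (prog C))^[M a] (0, s0 z (W a))).2 0 = (enc (V (a, z.reverse))).code := by
    intro z hz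
    have h1 := tr_exec (k := 1) (l := 0) (by omega) (fun b => true :: (enc b).code) z (s0 z (W a)) rfl
    rw [s0_tr] at h1
    have h2 := mv_exec (k := 2) (l := 0) (by omega) (W a)
      (fun k => if k = 0 then (enc z.reverse).code else if k = 2 then W a else []) rfl
    have e2 : update (update (fun k => if k = 0 then (enc z.reverse).code else if k = 2 then W a else [])
        0 ((W a).reverse ++ (fun k => if k = 0 then (enc z.reverse).code
          else if k = 2 then W a else [] : Stk) 0)) 2 []
        = st4 (fun _ => []) 0 (enc (a, z.reverse)).code [] [] [] := by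
      funext j
      by_cases hj2 : j = 2
      · subst hj2; rw [update_self, st4_2 (fun _ => []) 0]
      · rw [update_of_ne hj2]
        by_cases hj0 : j = 0
        · subst hj0
          rw [update_self, st4_0]
          simp only [if_true, W, List.reverse_reverse]
          rfl
        · rw [update_of_ne hj0]
          simp only [if_neg hj0, if_neg hj2]
          unfold st4
          split_ifs <;> rfl
    rw [e2] at h2
    obtain ⟨t, ht, h3⟩ := hr 0 (fun _ => []) (a, z.reverse)
    have h4 := exec_seq h1 (exec_seq h2 h3)
    have h5 := prog_exec (M := M a) h4 (by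
      refine Nat.mul_le_mul_left _ ?_
      have h6 := hk (a, z.reverse)
      have h7 : sz (a, z.reverse) + 1 ≤ sz a + 4 * n a + 3 := by
        rw [sz_pair]
        have := sz_bits_le z.reverse
        rw [List.length_reverse, hz] at this
        omega
      have h8 := Nat.pow_le_pow_left h7 k
      have h9 : (W a).length = sz a + 1 := by simp [W, sz]
      rw [h9, hz]
      omega)
    rw [h5]
    exact st4_0 (fun _ => []) 0 _ [] [] []
  have hb : ∀ b : Bool, ((enc b).code)[0]? ≠ some false ↔ b = true := by
    intro b
    cases b
    · simp [enc_false, DTree.code]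
    · simp [enc_true, DTree.code]
  constructor
  · rintro ⟨z, hz, h⟩
    rw [key z hz, hb] at h
    exact ⟨z.reverse, by simpa using hz, h⟩
  · rintro ⟨z, hz, h⟩
    refine ⟨z.reverse, by simpa using hz, ?_⟩
    rw [key _ (by simpa using hz), hb, List.reverse_reverse]
    exact h

end Pool.Agent.Helper53.CL
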