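import Pool.Agent.Helper53.CL.Cook

set_option autoImplicit false

/-! From clauses with three literals to not-all-equal constraints without negations. -/

namespace Pool.Agent.Helper53.CL

open Pool.Agent.Helper58 Function

/-- an injective pairing -/
def pr (a b : ℕ) : ℕ := (a + b) * (a + b) + a

lemma pr_inj {a b a' b' : ℕ} (h : pr a b = pr a' b') : a = a' ∧ b = b' := by
  unfold pr at h
  have h1 : a + b = a' + b' := by
    rcases lt_trichotomy (a + b) (a' + b') with hlt | heq | hgt
    · exfalso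
      have : (a + b + 1) * (a + b + 1) ≤ (a' + b') * (a' + b') := Nat.mul_le_mul hlt hlt
      nlinarith
    · exact heq
    · exfalso
      have : (a' + b' + 1) * (a' + b' + 1) ≤ (a + b) * (a + b) := Nat.mul_le_mul hgt hgt
      nlinarith
  rw [h1] at h
  omega

/-- number of an atom -/
def an (p : Atom) : ℕ := pr p.1 (pr p.2.1 (pr p.2.2.1 p.2.2.2))

lemma an_inj {p q : Atom} (h : an p = an q) : p = q := by
  obtain ⟨a, b, c, d⟩ := p
  obtain ⟨a', b', c', d'⟩ := q
  unfold an at h
  simp only at h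
  obtain ⟨h1, h⟩ := pr_inj h
  obtain ⟨h2, h⟩ := pr_inj h
  obtain ⟨h3, h4⟩ := pr_inj h
  rw [h1, h2, h3, h4]

/-- number of a literal -/
def ln (l : Lit) : ℕ := 2 * an l.1 + (bif l.2 then 1 else 0)

lemma ln_inj {l m : Lit} (h : ln l = ln m) : l = m := by
  obtain ⟨p, b⟩ := l
  obtain ⟨q, c⟩ := m
  unfold ln at h
  cases b <;> cases c <;> simp only [cond_true, cond_false] at h
  · rw [an_inj (by omega : an p = an q)]
  · omega
  · omega
  · rw [an_inj (by omega : an p = an q)]

/-- variable for a literal -/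
def LN (l : Lit) : ℕ := 2 * ln l + 1

/-- auxiliary variables -/
def XN (l m : Lit) (b : Bool) : ℕ := 4 * pr (ln l) (ln m) + (bif b then 2 else 4)

/-- names of variables -/
def num : Unit ⊕ (Lit ⊕ (Lit × Lit × Bool)) → ℕ
  | Sum.inl _ => 0
  | Sum.inr (Sum.inl l) => LN l
  | Sum.inr (Sum.inr (l, m, b)) => XN l m b

lemma num_inj : Injective num := by
  intro x y h
  rcases x with _ | x | ⟨l, m, b⟩ <;> rcases y with _ | y | ⟨l', m', b'⟩
  · rfl
  · simp only [num, LN] at h; omega
  · simp only [num, XN] at h; cases b' <;> simp at h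
  · simp only [num, LN] at h; omega
  · simp only [num, LN] at h
    rw [ln_inj (by omega : ln x = ln y)]
  · simp only [num, LN, XN] at h; cases b' <;> simp only [cond_true, cond_false] at h <;> omega
  · simp only [num, XN] at h; cases b <;> simp at h
  · simp only [num, LN, XN] at h; cases b <;> simp only [cond_true, cond_false] at h <;> omega
  · simp only [num, XN] at h
    have h1 : b = b' ∧ pr (ln l) (ln m) = pr (ln l') (ln m') := by
      cases b <;> cases b' <;> simp only [cond_true, cond_false] at h <;>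
        first
        | exact ⟨rfl, by omega⟩
        | omega
    obtain ⟨rfl, h2⟩ := h1
    obtain ⟨h3, h4⟩ := pr_inj h2
    rw [ln_inj h3, ln_inj h4]

/-- opposite literal -/
def opp (l : Lit) : Lit := (l.1, !l.2)

/-- a literal and its opposite have different values -/
def con (l : Lit) : ℕ × ℕ × ℕ := (LN l, LN (opp l), LN (opp l))

/-- the constraints of a clause -/
def tri (c : Cl) : List (ℕ × ℕ × ℕ) :=
  [(LN c.1, LN c.2.1, XN c.1 c.2.1 true), (XN c.1 c.2.1 false, LN c.2.2, 0),
   (XN c.1 c.2.1 true, XN c.1 c.2.1 false, XN c.1 c.2.1 false), con c.1, con c.2.1, con c.2.2]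

/-- the constraint is satisfied -/
def Nae (h : ℕ → Bool) (t : ℕ × ℕ × ℕ) : Prop := ¬ (h t.1 = h t.2.1 ∧ h t.2.1 = h t.2.2)

/-- value of a name -/
def val (Y : Atom → Bool) : Unit ⊕ (Lit ⊕ (Lit × Lit × Bool)) → Bool
  | Sum.inl _ => false
  | Sum.inr (Sum.inl l) => decide (Y l.1 = l.2)
  | Sum.inr (Sum.inr (l, m, b)) => xor b (decide (Y l.1 = l.2) || decide (Y m.1 = m.2))

theorem nae_iff (C : List Cl) :
    (∃ Y, ∀ c ∈ C, Sat Y c) ↔ ∃ h : ℕ → Bool, ∀ t ∈ C.flatMap tri, Nae h t := by
  constructor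
  · rintro ⟨Y, hY⟩
    let h : ℕ → Bool := extend num (val Y) (fun _ => false)
    have hv : ∀ x, h (num x) = val Y x := fun x => num_inj.extend_apply _ _ _
    have h0 : h 0 = false := hv (Sum.inl ())
    have hl : ∀ l, h (LN l) = decide (Y l.1 = l.2) := fun l => hv (Sum.inr (Sum.inl l))
    have hx : ∀ l m b, h (XN l m b) = xor b (decide (Y l.1 = l.2) || decide (Y m.1 = m.2)) :=
      fun l m b => hv (Sum.inr (Sum.inr (l, m, b)))
    refine ⟨h, ?_⟩
    intro t ht
    rw [List.mem_flatMap] at ht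
    obtain ⟨c, hc, ht⟩ := ht
    have hcon : ∀ l, Nae h (con l) := by
      rintro ⟨p, b⟩
      unfold Nae con
      simp only [hl, opp]
      cases Y p <;> cases b <;> simp
    have hs := hY c hc
    obtain ⟨⟨p1, b1⟩, ⟨p2, b2⟩, ⟨p3, b3⟩⟩ := c
    unfold Sat at hs
    simp only at hs
    simp only [tri, List.mem_cons, List.not_mem_nil, or_false] at ht
    rcases ht with rfl | rfl | rfl | rfl | rfl | rfl
    · unfold Nae
      simp only [hl, hx]
      cases decide (Y p1 = b1) <;> cases decide (Y p2 = b2) <;> simp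
    · unfold Nae
      simp only [hl, hx, h0]
      by_cases e1 : Y p1 = b1 <;> by_cases e2 : Y p2 = b2 <;> by_cases e3 : Y p3 = b3 <;>
        simp [e1, e2, e3] at hs ⊢
    · unfold Nae
      simp only [hx]
      cases decide (Y p1 = b1) <;> cases decide (Y p2 = b2) <;> simp
    · exact hcon _
    · exact hcon _
    · exact hcon _
  · rintro ⟨h, hh⟩
    refine ⟨fun p => xor (h (LN (p, true))) (h 0), ?_⟩
    intro c hc
    have hcm : ∀ t ∈ tri c, Nae h t := fun t ht => hh t (List.mem_flatMap.2 ⟨c, hc, ht⟩)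
    obtain ⟨⟨p1, b1⟩, ⟨p2, b2⟩, ⟨p3, b3⟩⟩ := c
    simp only [tri, List.mem_cons, List.not_mem_nil, or_false, forall_eq_or_imp, forall_eq] at hcm
    obtain ⟨c1, c2, c3, c4, c5, c6⟩ := hcm
    have hval : ∀ p b, Nae h (con (p, b)) → (xor (h (LN (p, true))) (h 0) = b ↔ h (LN (p, b)) ≠ h 0) := by
      intro p b hn
      unfold Nae con opp at hn
      simp only at hn
      cases b
      · simp only [Bool.not_false] at hn
        revert hn
        cases h (LN (p, true)) <;> cases h (LN (p, false)) <;> cases h 0 <;> simp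
      · cases h (LN (p, true)) <;> cases h 0 <;> simp
    unfold Sat
    simp only [hval _ _ c4, hval _ _ c5, hval _ _ c6]
    unfold Nae at c1 c2 c3
    simp only at c1 c2 c3
    revert c1 c2 c3
    generalize h (LN (p1, b1)) = v1
    generalize h (LN (p2, b2)) = v2
    generalize h (LN (p3, b3)) = v3
    generalize h (XN (p1, b1) (p2, b2) true) = w1
    generalize h (XN (p1, b1) (p2, b2) false) = w2
    generalize h 0 = z
    revert v1 v2 v3 w1 w2 z
    decide

section ptf

variable {γ : Type} [Enc γ]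

@[fun_prop] theorem ptf_pr {a b : γ → ℕ} (ha : PTf a) (hb : PTf b) : PTf (fun x => pr (a x) (b x)) := by
  unfold pr; fun_prop

@[fun_prop] theorem ptf_an {p : γ → Atom} (hp : PTf p) : PTf (fun x => an (p x)) := by
  unfold an; fun_prop

@[fun_prop] theorem ptf_ln {l : γ → Lit} (hl : PTf l) : PTf (fun x => ln (l x)) := by
  unfold ln; fun_prop

@[fun_prop] theorem ptf_LN {l : γ → Lit} (hl : PTf l) : PTf (fun x => LN (l x)) := by
  unfold LN; fun_prop

theorem ptf_XN {l m : γ → Lit} (b : Bool) (hl : PTf l) (hm : PTf m) :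
    PTf (fun x => XN (l x) (m x) b) := by
  unfold XN; fun_prop

theorem ptf_con {l : γ → Lit} (hl : PTf l) : PTf (fun x => con (l x)) := by
  unfold con opp; fun_prop

theorem ptf_tri {c : γ → Cl} (hc : PTf c) : PTf (fun x => tri (c x)) := by
  unfold tri
  have h1 : PTf (fun x => XN (c x).1 (c x).2.1 true) := ptf_XN _ (by fun_prop) (by fun_prop)
  have h2 : PTf (fun x => XN (c x).1 (c x).2.1 false) := ptf_XN _ (by fun_prop) (by fun_prop)
  have h3 : PTf (fun x => con (c x).1) := ptf_con (by fun_prop)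
  have h4 : PTf (fun x => con (c x).2.1) := ptf_con (by fun_prop)
  have h5 : PTf (fun x => con (c x).2.2) := ptf_con (by fun_prop)
  fun_prop

end ptf

/-- Bounded search with a polynomial time test reduces to not-all-equal 3-satisfiability. -/
theorem cook_nae {α : Type} [Enc α] {V : α × List Bool → Bool} (hV : PTf V) {n : α → ℕ}
    (hn : PTf n) : ∃ f : α → List (ℕ × ℕ × ℕ), PTf f ∧
      ∀ a, (∃ h : ℕ → Bool, ∀ t ∈ f a, Nae h t) ↔
        ∃ z : List Bool, z.length = n a ∧ V (a, z) = true := by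
  obtain ⟨f, hf, h⟩ := cook hV hn
  refine ⟨fun a => (f a).flatMap tri, PTf.flatMap hf (ptf_tri (PTf.snd PTf.id)), fun a => ?_⟩
  rw [← nae_iff, h]

end Pool.Agent.Helper53.CL
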