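import Pool.Agent.Helper53.CL.CspP
import Pool.Agent.Helper52.Poly.ClassDefs

set_option autoImplicit false

/-! Modules Z1, Z2: satisfiability if P = NP, and decision problems for types with tree
encodings. -/

namespace Pool.Agent.Helper53.CL

open Pool.Agent.Helper58 Function

open Classical in
/-- Z1: if P = NP then not-all-equal 3-satisfiability is in P. -/
theorem nae_of_pEqNP (hP : PEqNP) :
    PTf (fun t : List (ℕ × ℕ × ℕ) => decide (∃ h : ℕ → Bool, ∀ x ∈ t, Nae h x)) := by
  have h : Pool.Agent.Helper64.Canon.InP Pool.Agent.Helper64.Canon.NAE := csp_inP hP _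
  rw [inP_inst_iff] at h
  have h1 := PTf.comp (g := fun x : Coded (Pool.Agent.Helper64.Canon.encodeInstance
      (ar := fun _ : Fin 1 => 3)) encodeInstance_inj =>
    decide (x.val ∈ Pool.Agent.Helper64.Canon.NAE)) h
    (ptf_toInst (l := fun t : List (ℕ × ℕ × ℕ) => t) PTf.id)
  refine h1.congr (fun t => ?_)
  rw [decide_eq_decide]
  exact (nae_toInst t).symm

/-! ### tree codes -/

theorem tcode_inj (l : Pool.Agent.Helper52.Poly.T) :
    ∀ (l' : Pool.Agent.Helper52.Poly.T) (r r' : List Bool),
      l.code ++ r = l'.code ++ r' → l = l' ∧ r = r' := by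
  induction l with
  | leaf =>
    intro l' r r' h
    cases l' with
    | leaf =>
      simp only [Pool.Agent.Helper52.Poly.T.code, List.singleton_append, List.cons.injEq,
        true_and] at h
      exact ⟨rfl, h⟩
    | node a b => simp [Pool.Agent.Helper52.Poly.T.code] at h
  | node a b iha ihb =>
    intro l' r r' h
    cases l' with
    | leaf => simp [Pool.Agent.Helper52.Poly.T.code] at h
    | node a' b' =>
      simp only [Pool.Agent.Helper52.Poly.T.code, List.cons_append, List.append_assoc,
        List.cons.injEq, true_and] at h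
      obtain ⟨h1, h2⟩ := iha _ _ _ h
      obtain ⟨h3, h4⟩ := ihb _ _ _ h2
      exact ⟨by rw [h1, h3], h4⟩

theorem tcode_inj' {l l' : Pool.Agent.Helper52.Poly.T} (h : l.code = l'.code) : l = l' :=
  (tcode_inj l l' [] [] (by rw [h])).1

/-- code of a bit string as a list of bits -/
theorem code_bits (w : List Bool) : (Pool.Agent.Helper52.Poly.code w) =
    w.flatMap (fun b => bif b then [true, true, false, false] else [true, false]) ++ [false] := by
  induction w with
  | nil => rfl
  | cons b w ih =>
    rw [List.flatMap_cons, List.append_assoc, ← ih]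
    cases b <;> rfl

theorem enc_bits_inj : ∀ (w w' : List Bool),
    Pool.Agent.Helper52.Poly.enc w = Pool.Agent.Helper52.Poly.enc w' → w = w' := by
  intro w
  induction w with
  | nil =>
    intro w' h
    cases w' with
    | nil => rfl
    | cons b w' => exact absurd h (by rintro ⟨⟩)
  | cons b w ih =>
    intro w' h
    cases w' with
    | nil => exact absurd h (by rintro ⟨⟩)
    | cons b' w' =>
      have h1 : Pool.Agent.Helper52.Poly.T.node (Pool.Agent.Helper52.Poly.enc b)
          (Pool.Agent.Helper52.Poly.enc w) =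
        Pool.Agent.Helper52.Poly.T.node (Pool.Agent.Helper52.Poly.enc b')
          (Pool.Agent.Helper52.Poly.enc w') := h
      rw [Pool.Agent.Helper52.Poly.T.node.injEq] at h1
      rw [ih w' h1.2]
      cases b <;> cases b'
      · rfl
      · exact absurd h1.1 (by rintro ⟨⟩)
      · exact absurd h1.1 (by rintro ⟨⟩)
      · rfl

section bridge

variable {α : Type} [Pool.Agent.Helper52.Poly.Enc α]

theorem pair_code_inj (hinj : Injective (Pool.Agent.Helper52.Poly.code : α → List Bool)) :
    Injective (Pool.Agent.Helper52.Poly.code : α × List Bool → List Bool) := by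
  rintro ⟨a, w⟩ ⟨a', w'⟩ h
  have h1 : Pool.Agent.Helper52.Poly.T.node (Pool.Agent.Helper52.Poly.enc a)
      (Pool.Agent.Helper52.Poly.enc w) = Pool.Agent.Helper52.Poly.T.node
      (Pool.Agent.Helper52.Poly.enc a') (Pool.Agent.Helper52.Poly.enc w') := tcode_inj' h
  rw [Pool.Agent.Helper52.Poly.T.node.injEq] at h1
  have h2 : a = a' := hinj (by
    unfold Pool.Agent.Helper52.Poly.code
    rw [h1.1])
  rw [h2, enc_bits_inj w w' h1.2]

theorem ptf_pair_code (hinj : Injective (Pool.Agent.Helper52.Poly.code : α → List Bool)) :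
    PTf (fun q : Coded (Pool.Agent.Helper52.Poly.code : α → List Bool) hinj × List Bool =>
      (⟨(q.1.val, q.2)⟩ : Coded (Pool.Agent.Helper52.Poly.code : α × List Bool → List Bool)
        (pair_code_inj hinj))) := by
  have h0 : PTf (fun x : Coded (Pool.Agent.Helper52.Poly.code : α → List Bool) hinj =>
      Pool.Agent.Helper52.Poly.code x.val) := PTf.of_enc_eq (fun _ => rfl)
  have h1 : PTf (fun q : Coded (Pool.Agent.Helper52.Poly.code : α → List Bool) hinj ×
      List Bool => Pool.Agent.Helper52.Poly.code q.1.val) :=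
    PTf.comp (g := fun x : Coded (Pool.Agent.Helper52.Poly.code : α → List Bool) hinj =>
      Pool.Agent.Helper52.Poly.code x.val) h0
      (f := fun q : Coded (Pool.Agent.Helper52.Poly.code : α → List Bool) hinj × List Bool => q.1)
      (PTf.fst PTf.id)
  have h2 : PTf (fun q : Coded (Pool.Agent.Helper52.Poly.code : α → List Bool) hinj ×
      List Bool => true :: (Pool.Agent.Helper52.Poly.code q.1.val ++
        (q.2.flatMap (fun b => bif b then [true, true, false, false] else [true, false])
          ++ [false]))) := by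
    fun_prop
  refine h2.recode (i := fun c => c) (fun _ => rfl) (fun q => ?_)
  show enc (Pool.Agent.Helper52.Poly.code (q.1.val, q.2)) = _
  rw [← code_bits]
  rfl

open Classical in
/-- Z2, first part -/
theorem poly_inP_iff (hinj : Injective (Pool.Agent.Helper52.Poly.code : α → List Bool))
    (L : α → Prop) : Pool.Agent.Helper52.Poly.InP L ↔
      PTf (fun x : Coded (Pool.Agent.Helper52.Poly.code : α → List Bool) hinj =>
        decide (L x.val)) :=
  polyTime_iff Pool.Agent.Helper52.Poly.code hinj (fun b => (b, b))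
    (fun a b h => (Prod.ext_iff.1 h).1) (fun a => decide (L a))

/-- Z2, second part -/
theorem poly_inNP_reduces (hinj : Injective (Pool.Agent.Helper52.Poly.code : α → List Bool))
    {L : α → Prop} (hL : Pool.Agent.Helper52.Poly.InNP L) :
    ∃ f : Coded (Pool.Agent.Helper52.Poly.code : α → List Bool) hinj → List (ℕ × ℕ × ℕ),
      PTf f ∧ ∀ a, (∃ h : ℕ → Bool, ∀ t ∈ f a, Nae h t) ↔ L a.val := by
  obtain ⟨R, p, hR, h⟩ := hL
  have h1 := (polyTime_iff Pool.Agent.Helper52.Poly.code (pair_code_inj hinj) (fun b => (b, b))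
    (fun a b h => (Prod.ext_iff.1 h).1) R).1 hR
  have h2 : PTf (fun q : Coded (Pool.Agent.Helper52.Poly.code : α → List Bool) hinj ×
      List Bool => R (q.1.val, dc q.2)) := by
    have h3 : PTf (fun q : Coded (Pool.Agent.Helper52.Poly.code : α → List Bool) hinj ×
        List Bool => dc q.2) := ptf_dc (PTf.snd PTf.id)
    have h5 : PTf (fun q : Coded (Pool.Agent.Helper52.Poly.code : α → List Bool) hinj ×
        List Bool => (q.1, dc q.2)) := PTf.pair (PTf.fst PTf.id) h3
    have h6 := PTf.comp (ptf_pair_code hinj) h5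
    exact PTf.comp (g := fun x : Coded (Pool.Agent.Helper52.Poly.code :
      α × List Bool → List Bool) (pair_code_inj hinj) => R x.val) h1 h6
  have h0 : PTf (fun x : Coded (Pool.Agent.Helper52.Poly.code : α → List Bool) hinj =>
      Pool.Agent.Helper52.Poly.code x.val) := PTf.of_enc_eq (fun _ => rfl)
  have h4 : PTf (fun x : Coded (Pool.Agent.Helper52.Poly.code : α → List Bool) hinj =>
      2 * p.eval (Pool.Agent.Helper52.Poly.code x.val).length) := by
    have := ptf_poly (m := fun x : Coded (Pool.Agent.Helper52.Poly.code : α → List Bool) hinj =>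
      (Pool.Agent.Helper52.Poly.code x.val).length) (by fun_prop) p
    fun_prop
  obtain ⟨f, hf, hh⟩ := cook_nae h2 h4
  refine ⟨f, hf, fun a => ?_⟩
  rw [hh, h]
  constructor
  · rintro ⟨z, hz, hv⟩
    exact ⟨dc z, by have := dc_length z; omega, hv⟩
  · rintro ⟨w, hw, hv⟩
    exact ⟨ec _ w, ec_length hw, by simpa [dc_ec] using hv⟩

end bridge

end Pool.Agent.Helper53.CL
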