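import Pool.Agent.Helper53.CL.Lib

set_option autoImplicit false

/-! The classes P and NP in terms of stack programs. -/

namespace Pool.Agent.Helper53.CL

open Pool.Agent.Helper58 Function

lemma hd_single {α : Type} (a d : α) : hd [a] d = a := rfl

section bridge

variable {A α : Type} [Fintype A] [Enc A]

/-- the word can be recovered from its image -/
theorem ptf_val (ea : α → List A) (φ : A → Bool × Bool) (hφ : Injective φ)
    (hinj : Injective (fun a => (ea a).map φ)) :
    PTf (fun x : Coded (fun a => (ea a).map φ) hinj => ea x.val) := by
  classical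
  let g : Bool × Bool → List A := fun p => if h : ∃ a, φ a = p then [h.choose] else []
  have hg : ∀ a, g (φ a) = [a] := by
    intro a
    have h : ∃ b, φ b = φ a := ⟨a, rfl⟩
    show (if h : ∃ b, φ b = φ a then [h.choose] else []) = [a]
    rw [dif_pos h, hφ h.choose_spec]
  have h1 : PTf (fun x : Coded (fun a => (ea a).map φ) hinj => (ea x.val).map φ) :=
    PTf.of_enc_eq (fun _ => rfl)
  have h2 : PTf g := PTf.ofFinite g
  have h3 : PTf (fun x : Coded (fun a => (ea a).map φ) hinj => ((ea x.val).map φ).flatMap g) :=
    PTf.flatMap h1 (PTf.comp h2 (PTf.snd PTf.id))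
  refine h3.congr (fun x => ?_)
  induction ea x.val with
  | nil => rfl
  | cons a l ih => rw [List.map_cons, List.flatMap_cons, ← ih, hg]; rfl

theorem polyTime_iff (ea : α → List A) (hea : Injective ea) (φ : A → Bool × Bool)
    (hφ : Injective φ) (f : α → Bool) :
    Nonempty (Turing.TM2ComputableInPolyTime ea Computability.encodeBool f) ↔
      PTf (fun x : Coded ea hea => f x.val) := by
  constructor
  · intro h
    have h1 : PTf (fun x : Coded ea hea => Computability.encodeBool (f x.val)) :=
      ptf_of_polyTime ea Computability.encodeBool hea h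
    have h2 : PTf (fun x : Coded ea hea => hd (Computability.encodeBool (f x.val)) false) :=
      ptf_hd h1 (PTf.const _)
    exact h2.congr (fun x => rfl)
  · intro h
    have hinj : Injective (fun a => (ea a).map φ) :=
      (List.map_injective_iff.2 hφ).comp hea
    have h1 := ptf_val ea φ hφ hinj
    have h2 : PTf (fun x : Coded (fun a => (ea a).map φ) hinj => (⟨x.val⟩ : Coded ea hea)) :=
      h1.recode (i := fun c => c) (fun _ => rfl) (fun _ => rfl)
    have h3 : PTf (fun x : Coded (fun a => (ea a).map φ) hinj => f x.val) :=
      PTf.comp (g := fun x : Coded ea hea => f x.val) h h2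
    refine polyTime_of_ptf ea φ hinj Computability.encodeBool ?_
    have h4 : PTf (fun x : Coded (fun a => (ea a).map φ) hinj => [f x.val]) :=
      PTf.cons h3 (PTf.const [])
    exact h4.congr (fun x => rfl)

end bridge

open Classical in
theorem inP_iff (L : Set (List Bool)) : InP L ↔ PTf (fun u : List Bool => decide (u ∈ L)) := by
  unfold InP
  rw [polyTime_iff (fun u : List Bool => u) injective_id (fun b => (b, b)) (fun a b h => (Prod.ext_iff.1 h).1)]
  constructor
  · intro h
    exact h.recode (i := fun u => ⟨u⟩) (fun _ => rfl) (fun _ => rfl)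
  · intro h
    exact h.recode (i := fun x => x.val) (fun _ => rfl) (fun _ => rfl)

/-- two bits per letter -/
def ob : Option Bool → Bool × Bool
  | none => (false, false)
  | some b => (true, b)

lemma ob_inj : Injective ob := by
  intro a b h
  rcases a with _ | _ | _ <;> rcases b with _ | _ | _ <;> simp [ob] at h ⊢

theorem ptf_encPair {γ : Type} [Enc γ] {p : γ → List Bool × List Bool} (hp : PTf p) :
    PTf (fun x => encPair (p x)) := by
  unfold encPair
  have h1 : PTf (fun b : Bool => some b) := PTf.ofFinite _
  have h2 : PTf (fun x => (p x).1.map some) := PTf.map (PTf.fst hp) (PTf.comp h1 (PTf.snd PTf.id))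
  have h3 : PTf (fun x => (p x).2.map some) := PTf.map (PTf.snd hp) (PTf.comp h1 (PTf.snd PTf.id))
  fun_prop

theorem verifier_iff (V : List Bool × List Bool → Bool) :
    Nonempty (Turing.TM2ComputableInPolyTime encPair Computability.encodeBool V) ↔ PTf V := by
  rw [polyTime_iff encPair encPair_inj ob ob_inj]
  constructor
  · intro h
    have h1 : PTf (fun p : List Bool × List Bool => (⟨p⟩ : Coded encPair encPair_inj)) :=
      (ptf_encPair PTf.id).recode (i := fun c => c) (fun _ => rfl) (fun _ => rfl)
    exact PTf.comp (g := fun x : Coded encPair encPair_inj => V x.val) h h1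
  · intro h
    have h1 : PTf (fun x : Coded encPair encPair_inj => encPair x.val) := PTf.of_enc_eq (fun _ => rfl)
    exact (PTf.comp h (ptf_split h1)).congr (fun x => by rw [split_encPair])

theorem inNP_iff (L : Set (List Bool)) : InNP L ↔
    ∃ (V : List Bool × List Bool → Bool) (p : Polynomial ℕ), PTf V ∧
      ∀ u, u ∈ L ↔ ∃ w : List Bool, w.length ≤ p.eval u.length ∧ V (u, w) = true := by
  unfold InNP
  simp only [verifier_iff]

theorem inNP_of_inP {L : Set (List Bool)} (h : InP L) : InNP L := by
  classical
  rw [inP_iff] at h
  rw [inNP_iff]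
  refine ⟨fun p => decide (p.1 ∈ L), 0, PTf.comp h (PTf.fst PTf.id), fun u => ?_⟩
  constructor
  · intro hu
    exact ⟨[], by simp, by simpa using hu⟩
  · rintro ⟨w, _, hw⟩
    simpa using hw

theorem pEqNP_iff : PEqNP ↔ ∀ L : Set (List Bool), InNP L → InP L := by
  unfold PEqNP
  constructor
  · intro h L hL
    have : L ∈ {L | InP L} := by rw [h]; exact hL
    exact this
  · intro h
    ext L
    exact ⟨inNP_of_inP, h L⟩

theorem ptf_poly {γ : Type} [Enc γ] {m : γ → ℕ} (hm : PTf m) (p : Polynomial ℕ) :
    PTf (fun x => p.eval (m x)) := by
  induction p using Polynomial.induction_on' with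
  | add p q hp hq =>
    have : PTf (fun x => p.eval (m x) + q.eval (m x)) := by fun_prop
    exact this.congr (fun x => by simp)
  | monomial n c =>
    have h1 := ptf_pow hm n
    have : PTf (fun x => c * m x ^ n) := by fun_prop
    exact this.congr (fun x => by simp)

/-! ### certificates of fixed length -/

/-- state: pending bit, output -/
def dcStep (s : List Bool × List Bool) (b : Bool) : List Bool × List Bool :=
  lcase s.1 ([b], s.2) (fun c _ => ([], bif c then s.2 ++ [b] else s.2))

/-- reads pairs of bits; a pair `(true, b)` stands for `b`, a pair `(false, b)` for nothing -/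
def dc (z : List Bool) : List Bool := (z.foldl dcStep ([], [])).2

/-- writes a word of length at most `n` as a word of length `2 * n` -/
def ec (n : ℕ) (w : List Bool) : List Bool :=
  w.flatMap (fun b => [true, b]) ++ List.replicate (2 * (n - w.length)) false

lemma ec_length {n : ℕ} {w : List Bool} (h : w.length ≤ n) : (ec n w).length = 2 * n := by
  have : (w.flatMap (fun b => [true, b])).length = 2 * w.length := by
    clear h
    induction w with
    | nil => rfl
    | cons b w ih => rw [List.flatMap_cons, List.length_append, ih]; simp; ring
  unfold ec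
  rw [List.length_append, this, List.length_replicate]
  omega

lemma dc_aux (w v : List Bool) :
    (w.flatMap (fun b => [true, b])).foldl dcStep ([], v) = ([], v ++ w) := by
  induction w generalizing v with
  | nil => simp
  | cons b w ih =>
    rw [List.flatMap_cons, List.foldl_append]
    have : [true, b].foldl dcStep ([], v) = ([], v ++ [b]) := rfl
    rw [this, ih]; simp

lemma dc_aux2 (k : ℕ) (v : List Bool) : (List.replicate (2 * k) false).foldl dcStep ([], v) = ([], v) := by
  induction k with
  | zero => simp
  | succ k ih =>
    have : List.replicate (2 * (k + 1)) false = false :: false :: List.replicate (2 * k) false := by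
      rw [show 2 * (k + 1) = 2 * k + 1 + 1 by ring]; rfl
    rw [this, List.foldl_cons, List.foldl_cons]
    exact ih

lemma dc_ec (n : ℕ) (w : List Bool) : dc (ec n w) = w := by
  unfold dc ec
  rw [List.foldl_append, dc_aux, dc_aux2]
  simp

lemma dc_length (z : List Bool) : 2 * (dc z).length ≤ z.length := by
  have key : ∀ (z p v : List Bool),
      2 * (z.foldl dcStep (p, v)).2.length ≤ z.length + p.length + 2 * v.length := by
    intro z
    induction z with
    | nil => intro p v; simp
    | cons b z ih =>
      intro p v
      rw [List.foldl_cons]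
      cases p with
      | nil =>
        have e : dcStep ([], v) b = ([b], v) := rfl
        rw [e]
        have := ih [b] v
        simp only [List.length_cons, List.length_nil] at this ⊢
        omega
      | cons c p =>
        cases c
        · have e : dcStep (false :: p, v) b = ([], v) := rfl
          rw [e]
          have := ih [] v
          simp only [List.length_cons, List.length_nil] at this ⊢
          omega
        · have e : dcStep (true :: p, v) b = ([], v ++ [b]) := rfl
          rw [e]
          have := ih [] (v ++ [b])
          simp only [List.length_cons, List.length_nil, List.length_append] at this ⊢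
          omega
  have := key z [] []
  simpa [dc] using this

theorem ptf_dc {γ : Type} [Enc γ] {z : γ → List Bool} (hz : PTf z) : PTf (fun x => dc (z x)) := by
  unfold dc
  have h := ptf_foldl_add (γ := γ) (l := z) (init := fun _ => (([] : List Bool), ([] : List Bool)))
    (step := fun _ s a => dcStep s a) (K := fun _ => 10) hz (PTf.const _) ?_ (PB.const _) ?_
  · exact PTf.snd h
  · unfold dcStep
    fun_prop
  · rintro x ⟨p, v⟩ a _
    have h3 : ∀ (v : List Bool) (c : Bool), sz (v ++ [c]) ≤ sz v + 4 := by
      intro v c
      have h4 := sz_append v [c]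
      rw [sz_lcons, sz_lnil] at h4
      have := sz_bool c
      omega
    cases p with
    | nil =>
      have e : dcStep ([], v) a = ([a], v) := rfl
      rw [e, sz_pair, sz_pair, sz_lcons, sz_lnil]
      have := sz_bool a
      omega
    | cons c p =>
      have hp := sz_pos (c :: p)
      cases c
      · have e : dcStep (false :: p, v) a = ([], v) := rfl
        rw [e, sz_pair, sz_pair, sz_lnil]
        omega
      · have e : dcStep (true :: p, v) a = ([], v ++ [a]) := rfl
        rw [e, sz_pair, sz_pair, sz_lnil]
        have := h3 v a
        omega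

/-- **Cook's theorem** for NP: every language in NP reduces to not-all-equal 3-satisfiability. -/
theorem inNP_reduces {L : Set (List Bool)} (h : InNP L) : ∃ f : List Bool → List (ℕ × ℕ × ℕ), PTf f ∧
    ∀ u, (∃ h : ℕ → Bool, ∀ t ∈ f u, Nae h t) ↔ u ∈ L := by
  rw [inNP_iff] at h
  obtain ⟨V, p, hV, hL⟩ := h
  have h1 : PTf (fun q : List Bool × List Bool => V (q.1, dc q.2)) := by
    have h2 : PTf (fun q : List Bool × List Bool => dc q.2) := ptf_dc (PTf.snd PTf.id)
    exact PTf.comp hV (PTf.pair (PTf.fst PTf.id) h2)
  have h3 : PTf (fun u : List Bool => 2 * p.eval u.length) := by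
    have := ptf_poly (m := fun u : List Bool => u.length) (by fun_prop) p
    fun_prop
  obtain ⟨f, hf, hh⟩ := cook_nae h1 h3
  refine ⟨f, hf, fun u => ?_⟩
  rw [hh, hL]
  constructor
  · rintro ⟨z, hz, hv⟩
    exact ⟨dc z, by have := dc_length z; omega, hv⟩
  · rintro ⟨w, hw, hv⟩
    exact ⟨ec _ w, ec_length hw, by simpa [dc_ec] using hv⟩

end Pool.Agent.Helper53.CL
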