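import Pool.Agent.Helper58.Cmd

set_option autoImplicit false

/-! Stack programs as lists of elementary instructions. -/

namespace Pool.Agent.Helper53.CL

open Pool.Agent.Helper58 Function

/-- Elementary instructions; all arguments of type `ℕ` except the stack index are addresses. -/
inductive Ins
  | jmp : ℕ → Ins
  | push : ℕ → Bool → ℕ → Ins
  | pop : ℕ → ℕ → ℕ → ℕ → Ins

/-- effect of an instruction -/
def stepI : Ins → Stk → ℕ × Stk
  | Ins.jmp q, s => (q, s)
  | Ins.push k b q, s => (q, update s k (b :: s k))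
  | Ins.pop k e f t, s =>
    match s k with
    | [] => (e, s)
    | false :: l => (f, update s k l)
    | true :: l => (t, update s k l)

/-- instruction at an address -/
def ins (P : List Ins) (q : ℕ) : Ins := (P[q]?).getD (Ins.jmp q)

/-- one step of a program -/
def step (P : List Ins) (c : ℕ × Stk) : ℕ × Stk := stepI (ins P c.1) c.2

/-- number of instructions -/
def len : Cmd → ℕ
  | Cmd.skip => 1
  | Cmd.push _ _ => 1
  | Cmd.popCase _ e f t => 1 + (len e + (len f + len t))
  | Cmd.seq c d => len c + len d
  | Cmd.loop _ c => 3 + len c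

/-- translation, with start address `a` and exit address `x` -/
def comp : Cmd → ℕ → ℕ → List Ins
  | Cmd.skip, _, x => [Ins.jmp x]
  | Cmd.push k b, _, x => [Ins.push k b x]
  | Cmd.popCase k e f t, a, x =>
    Ins.pop k (a + 1) (a + 1 + len e) (a + 1 + len e + len f) ::
      (comp e (a + 1) x ++ (comp f (a + 1 + len e) x ++ comp t (a + 1 + len e + len f) x))
  | Cmd.seq c d, a, x => comp c a (a + len c) ++ comp d (a + len c) x
  | Cmd.loop k c, a, x =>
    Ins.pop k x (a + 1) (a + 2) :: Ins.push k false (a + 3) :: Ins.push k true (a + 3) ::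
      comp c (a + 3) a

lemma len_pos : ∀ c : Cmd, 1 ≤ len c
  | Cmd.skip => le_rfl
  | Cmd.push _ _ => le_rfl
  | Cmd.popCase _ _ _ _ => by simp only [len]; omega
  | Cmd.seq c _ => by have := len_pos c; simp only [len]; omega
  | Cmd.loop _ _ => by simp only [len]; omega

lemma comp_length : ∀ (c : Cmd) (a x : ℕ), (comp c a x).length = len c
  | Cmd.skip, _, _ => rfl
  | Cmd.push _ _, _, _ => rfl
  | Cmd.popCase _ e f t, a, x => by
    simp only [comp, len, List.length_cons, List.length_append, comp_length e, comp_length f,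
      comp_length t]
    omega
  | Cmd.seq c d, a, x => by simp only [comp, len, List.length_append, comp_length c, comp_length d]
  | Cmd.loop _ c, a, x => by
    simp only [comp, len, List.length_cons, comp_length c]
    omega

/-- the code `L` is located at address `a` of `P` -/
def Loc (P : List Ins) (a : ℕ) (L : List Ins) : Prop :=
  ∃ u v : List Ins, P = u ++ (L ++ v) ∧ u.length = a

lemma Loc.head {P : List Ins} {a : ℕ} {i : Ins} {L : List Ins} (h : Loc P a (i :: L)) :
    ins P a = i := by
  obtain ⟨u, v, rfl, rfl⟩ := h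
  unfold ins
  rw [List.getElem?_append_right le_rfl]
  simp

lemma Loc.tail {P : List Ins} {a : ℕ} {i : Ins} {L : List Ins} (h : Loc P a (i :: L)) :
    Loc P (a + 1) L := by
  obtain ⟨u, v, rfl, rfl⟩ := h
  exact ⟨u ++ [i], v, by simp, by simp⟩

lemma Loc.left {P : List Ins} {a : ℕ} {L M : List Ins} (h : Loc P a (L ++ M)) : Loc P a L := by
  obtain ⟨u, v, rfl, rfl⟩ := h
  exact ⟨u, M ++ v, by simp, rfl⟩

lemma Loc.right {P : List Ins} {a b : ℕ} {L M : List Ins} (h : Loc P a (L ++ M))
    (hb : b = a + L.length) : Loc P b M := by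
  obtain ⟨u, v, rfl, rfl⟩ := h
  exact ⟨u ++ L, v, by simp, by simp [hb]⟩

lemma step_eq {P : List Ins} {a : ℕ} {i : Ins} (h : ins P a = i) (s : Stk) :
    step P (a, s) = stepI i s := by
  unfold step
  simp only [h]

theorem comp_exec {c : Cmd} {s s' : Stk} {t : ℕ} (h : Exec c s s' t) :
    ∀ (P : List Ins) (a x : ℕ), Loc P a (comp c a x) →
      ∃ n ≤ len c * (t + 1), (step P)^[n] (a, s) = (x, s') := by
  induction h with
  | skip s =>
    intro P a x hl
    exact ⟨1, by simp [len], by rw [iterate_one, step_eq hl.head]; rfl⟩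
  | push k b s =>
    intro P a x hl
    exact ⟨1, by simp [len], by rw [iterate_one, step_eq hl.head]; rfl⟩
  | popE k e f t s s' n h he ih =>
    intro P a x hl
    have h1 := hl.head
    have h2 := hl.tail.left
    obtain ⟨m, hm, hr⟩ := ih P (a + 1) x h2
    refine ⟨m + 1, ?_, ?_⟩
    · have h3 : len e * (n + 1) ≤ (len e + (len f + len t)) * (n + 1) :=
        Nat.mul_le_mul_right _ (Nat.le_add_right _ _)
      have h4 : len (Cmd.popCase k e f t) * (n + 1) = (n + 1) + (len e + (len f + len t)) * (n + 1) := by
        simp only [len]; ring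
      omega
    · rw [iterate_add_apply, iterate_one, step_eq h1]
      simp only [stepI, h]
      exact hr
  | popF k e f t s s' n l h he ih =>
    intro P a x hl
    have h1 := hl.head
    have h2 := (hl.tail.right (b := a + 1 + len e) (by rw [comp_length])).left
    obtain ⟨m, hm, hr⟩ := ih P (a + 1 + len e) x h2
    refine ⟨m + 1, ?_, ?_⟩
    · have h3 : len f * (n + 1) ≤ (len e + (len f + len t)) * (n + 1) :=
        Nat.mul_le_mul_right _ (by omega)
      have h4 : len (Cmd.popCase k e f t) * (n + 1) = (n + 1) + (len e + (len f + len t)) * (n + 1) := by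
        simp only [len]; ring
      omega
    · rw [iterate_add_apply, iterate_one, step_eq h1]
      simp only [stepI, h]
      exact hr
  | popT k e f t s s' n l h he ih =>
    intro P a x hl
    have h1 := hl.head
    have h2 := (hl.tail.right (b := a + 1 + len e) (by rw [comp_length])).right
      (b := a + 1 + len e + len f) (by rw [comp_length])
    obtain ⟨m, hm, hr⟩ := ih P (a + 1 + len e + len f) x h2
    refine ⟨m + 1, ?_, ?_⟩
    · have h3 : len t * (n + 1) ≤ (len e + (len f + len t)) * (n + 1) :=
        Nat.mul_le_mul_right _ (by omega)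
      have h4 : len (Cmd.popCase k e f t) * (n + 1) = (n + 1) + (len e + (len f + len t)) * (n + 1) := by
        simp only [len]; ring
      omega
    · rw [iterate_add_apply, iterate_one, step_eq h1]
      simp only [stepI, h]
      exact hr
  | seq c d s s' s'' n n' h1 h2 ih1 ih2 =>
    intro P a x hl
    obtain ⟨m1, hm1, hr1⟩ := ih1 P a (a + len c) hl.left
    obtain ⟨m2, hm2, hr2⟩ := ih2 P (a + len c) x (hl.right (by rw [comp_length]))
    refine ⟨m2 + m1, ?_, ?_⟩
    · have h3 : len c * (n + 1) ≤ len c * (n + n' + 1) := Nat.mul_le_mul_left _ (by omega)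
      have h4 : len d * (n' + 1) ≤ len d * (n + n' + 1) := Nat.mul_le_mul_left _ (by omega)
      have h5 : len (Cmd.seq c d) * (n + n' + 1) = len c * (n + n' + 1) + len d * (n + n' + 1) := by
        simp only [len]; ring
      omega
    · rw [iterate_add_apply, hr1, hr2]
  | loopE k c s h =>
    intro P a x hl
    refine ⟨1, ?_, ?_⟩
    · have := len_pos (Cmd.loop k c)
      omega
    · rw [iterate_one, step_eq hl.head]
      simp only [stepI, h]
  | loopS k c s s' s'' n n' h h1 h2 ih1 ih2 =>
    intro P a x hl
    obtain ⟨m1, hm1, hr1⟩ := ih1 P (a + 3) a hl.tail.tail.tail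
    obtain ⟨m2, hm2, hr2⟩ := ih2 P a x hl
    refine ⟨m2 + (m1 + 2), ?_, ?_⟩
    · have h3 : len (Cmd.loop k c) * (n + n' + 1 + 1)
          = len (Cmd.loop k c) * (n' + 1) + (len c * (n + 1) + 3 * (n + 1)) := by
        simp only [len]; ring
      omega
    · rw [iterate_add_apply, iterate_add_apply]
      have e0 : (step P)^[2] (a, s) = (a + 3, s) := by
        show step P (step P (a, s)) = _
        rw [step_eq hl.head]
        rcases hk : s k with _ | ⟨b, l⟩
        · exact absurd hk h
        · cases b
          · simp only [stepI, hk]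
            rw [step_eq hl.tail.head]
            simp only [stepI, update_self, update_idem]
            rw [← hk, update_eq_self]
          · simp only [stepI, hk]
            rw [step_eq hl.tail.tail.head]
            simp only [stepI, update_self, update_idem]
            rw [← hk, update_eq_self]
      rw [e0, hr1, hr2]

/-- the whole program -/
def prog (c : Cmd) : List Ins := comp c 0 (len c)

lemma step_halt (c : Cmd) (s : Stk) : step (prog c) (len c, s) = (len c, s) := by
  have : ins (prog c) (len c) = Ins.jmp (len c) := by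
    unfold ins prog
    rw [List.getElem?_eq_none (by rw [comp_length])]
    rfl
  rw [step_eq this]; rfl

lemma step_halt_iter (c : Cmd) (s : Stk) (n : ℕ) : (step (prog c))^[n] (len c, s) = (len c, s) := by
  induction n with
  | zero => rfl
  | succ n ih => rw [iterate_succ_apply, step_halt, ih]

theorem prog_exec {c : Cmd} {s s' : Stk} {t : ℕ} (h : Exec c s s' t) {M : ℕ}
    (hM : len c * (t + 1) ≤ M) : (step (prog c))^[M] (0, s) = (len c, s') := by
  obtain ⟨n, hn, hr⟩ := comp_exec h (prog c) 0 (len c) ⟨[], [], by simp [prog], rfl⟩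
  obtain ⟨m, rfl⟩ : ∃ m, M = m + n := ⟨M - n, by omega⟩
  rw [iterate_add_apply, hr, step_halt_iter]

/-- addresses and stacks of an instruction are bounded -/
def Ins.Bd (Q N : ℕ) : Ins → Prop
  | Ins.jmp q => q < Q
  | Ins.push k _ q => k < N ∧ q < Q
  | Ins.pop k e f t => k < N ∧ e < Q ∧ f < Q ∧ t < Q

lemma Ins.Bd.mono {Q Q' N N' : ℕ} (h : Q ≤ Q') (h' : N ≤ N') : ∀ {i : Ins}, i.Bd Q N → i.Bd Q' N'
  | Ins.jmp _, hi => lt_of_lt_of_le hi h
  | Ins.push _ _ _, hi => ⟨lt_of_lt_of_le hi.1 h', lt_of_lt_of_le hi.2 h⟩
  | Ins.pop _ _ _ _, hi => ⟨lt_of_lt_of_le hi.1 h', lt_of_lt_of_le hi.2.1 h,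
      lt_of_lt_of_le hi.2.2.1 h, lt_of_lt_of_le hi.2.2.2 h⟩

lemma exists_bd (P : List Ins) : ∃ B, ∀ i ∈ P, i.Bd B B := by
  induction P with
  | nil => exact ⟨0, by simp⟩
  | cons i P ih =>
    obtain ⟨B, hB⟩ := ih
    obtain ⟨B', hB'⟩ : ∃ B', i.Bd B' B' := by
      cases i with
      | jmp q => exact ⟨q + 1, by simp [Ins.Bd]⟩
      | push k b q => exact ⟨k + q + 1, by simp only [Ins.Bd]; omega⟩
      | pop k e f t => exact ⟨k + e + f + t + 1, by simp only [Ins.Bd]; omega⟩
    refine ⟨B + B', ?_⟩
    intro j hj
    rcases List.mem_cons.1 hj with rfl | hj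
    · exact hB'.mono (by omega) (by omega)
    · exact (hB j hj).mono (by omega) (by omega)

/-- a common bound for a program -/
lemma exists_bound (P : List Ins) (m : ℕ) : ∃ B, m < B ∧ ∀ q < B, (ins P q).Bd B B := by
  obtain ⟨B, hB⟩ := exists_bd P
  refine ⟨B + m + 1, by omega, ?_⟩
  intro q hq
  unfold ins
  cases h : P[q]? with
  | none => exact hq
  | some i => exact (hB i (List.mem_of_getElem? h)).mono (by omega) (by omega)

end Pool.Agent.Helper53.CL
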