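import Pool.Agent.Helper53.CL.Classes
import Pool.Agent.Helper64.CanonDefs

set_option autoImplicit false

/-! Finite constraint satisfaction problems and the classes P and NP. -/

namespace Pool.Agent.Helper53.CL

open Pool.Agent.Helper58 Function
open Pool.Agent.Helper64.Canon (Instance CSP encodeInstance encodeConstraint)

/-! ### parsing -/

/-- state: current number, current constraint, constraints read -/
def psStep (s : ℕ × (List ℕ × List (List ℕ))) (a : Fin 3) : ℕ × (List ℕ × List (List ℕ)) :=
  if a = 0 then (s.1 + 1, s.2) else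
    if a = 1 then (0, (s.2.1 ++ [s.1], s.2.2)) else (0, ([], s.2.2 ++ [s.2.1]))

/-- list of constraints, each given by a list of numbers -/
def parse (l : List (Fin 3)) : List (List ℕ) := (l.foldl psStep (0, ([], []))).2.2

lemma ps_num (n c : ℕ) (u : List ℕ) (v : List (List ℕ)) :
    (List.replicate n (0 : Fin 3) ++ [1]).foldl psStep (c, (u, v)) = (0, (u ++ [c + n], v)) := by
  induction n generalizing c with
  | zero => simp [psStep]
  | succ n ih =>
    rw [List.replicate_succ, List.cons_append, List.foldl_cons]
    have : psStep (c, (u, v)) 0 = (c + 1, (u, v)) := by simp [psStep]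
    rw [this, ih]
    congr 3
    rw [show c + 1 + n = c + (n + 1) by ring]

lemma ps_nums (L : List ℕ) (u : List ℕ) (v : List (List ℕ)) :
    (L.map fun n => List.replicate n (0 : Fin 3) ++ [1]).flatten.foldl psStep (0, (u, v))
      = (0, (u ++ L, v)) := by
  induction L generalizing u with
  | nil => simp
  | cons n L ih =>
    rw [List.map_cons, List.flatten_cons, List.foldl_append, ps_num, ih]
    simp

/-- the list of numbers of a constraint -/
def cl {s : ℕ} {ar : Fin s → ℕ} (x : Σ i : Fin s, (Fin (ar i) → ℕ)) : List ℕ :=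
  (x.1 : ℕ) :: List.ofFn x.2

lemma ps_constraint {s : ℕ} {ar : Fin s → ℕ} (x : Σ i : Fin s, (Fin (ar i) → ℕ))
    (v : List (List ℕ)) :
    (encodeConstraint x).foldl psStep (0, ([], v)) = (0, ([], v ++ [cl x])) := by
  have e : encodeConstraint x
      = ((cl x).map fun n => List.replicate n (0 : Fin 3) ++ [1]).flatten ++ [2] := by
    unfold encodeConstraint cl
    rw [List.map_cons, List.flatten_cons]
    congr 2
    congr 1
    rw [List.map_ofFn]
    rfl
  rw [e, List.foldl_append, ps_nums]
  simp [psStep]

lemma parse_encode {s : ℕ} {ar : Fin s → ℕ} (I : Instance s ar) :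
    parse (encodeInstance I) = I.map cl := by
  have key : ∀ (I : Instance s ar) (v : List (List ℕ)),
      (encodeInstance I).foldl psStep (0, ([], v)) = (0, ([], v ++ I.map cl)) := by
    intro I
    induction I with
    | nil => intro v; simp [encodeInstance]
    | cons x I ih =>
      intro v
      have e : encodeInstance (x :: I) = encodeConstraint x ++ encodeInstance I := by
        simp [encodeInstance]
      rw [e, List.foldl_append, ps_constraint, ih]
      simp
  unfold parse
  rw [key]
  simp

lemma cl_inj {s : ℕ} {ar : Fin s → ℕ} : Injective (cl (ar := ar)) := by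
  rintro ⟨i, x⟩ ⟨j, y⟩ h
  unfold cl at h
  simp only [List.cons.injEq] at h
  obtain ⟨h1, h2⟩ := h
  have h1' : i = j := Fin.ext h1
  subst h1'
  rw [List.ofFn_injective h2]

lemma encodeInstance_inj {s : ℕ} {ar : Fin s → ℕ} : Injective (encodeInstance (ar := ar)) := by
  intro I J h
  have h2 : I.map cl = J.map cl := by rw [← parse_encode, h, parse_encode]
  exact List.map_injective_iff.2 cl_inj h2

theorem ptf_parse {γ : Type} [Enc γ] {l : γ → List (Fin 3)} (hl : PTf l) :
    PTf (fun x => parse (l x)) := by
  unfold parse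
  have h := ptf_foldl_add (γ := γ) (l := l) (init := fun _ => (0, (([] : List ℕ), ([] : List (List ℕ)))))
    (step := fun _ s a => psStep s a) (K := fun _ => 10) hl (PTf.const _) ?_ (PB.const _) ?_
  · exact PTf.snd (PTf.snd h)
  · unfold psStep
    fun_prop
  · rintro x ⟨c, u, v⟩ a _
    unfold psStep
    split_ifs
    · simp only [sz_pair, sz_succ]
      omega
    · simp only [sz_pair]
      have h1 := sz_append u [c]
      rw [sz_lcons, sz_lnil] at h1
      have := sz_zero
      have := sz_pos c
      omega
    · simp only [sz_pair]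
      have h1 := sz_append v [u]
      rw [sz_lcons, sz_lnil] at h1
      have := sz_zero
      have := sz_pos c
      have : sz ([] : List ℕ) = 1 := sz_lnil
      omega

/-! ### decision problems for instances -/

/-- two bits per letter -/
def tb (a : Fin 3) : Bool × Bool := (decide (a = 1), decide (a = 2))

lemma tb_inj : Injective tb := by
  intro a b h
  revert a b
  decide

open Classical in
theorem inP_inst_iff {s : ℕ} {ar : Fin s → ℕ} (A : Set (Instance s ar)) :
    Pool.Agent.Helper64.Canon.InP A ↔
      PTf (fun x : Coded (encodeInstance (ar := ar)) encodeInstance_inj => decide (x.val ∈ A)) :=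
  polyTime_iff encodeInstance encodeInstance_inj tb tb_inj _

/-- a list of triples as an instance -/
def toInst (l : List (ℕ × ℕ × ℕ)) : Instance 1 fun _ => 3 :=
  l.map fun t => ⟨0, ![t.1, t.2.1, t.2.2]⟩

lemma nae_toInst (l : List (ℕ × ℕ × ℕ)) :
    toInst l ∈ Pool.Agent.Helper64.Canon.NAE ↔ ∃ h : ℕ → Bool, ∀ t ∈ l, Nae h t := by
  unfold Pool.Agent.Helper64.Canon.NAE CSP toInst
  simp only [Set.mem_setOf_eq, List.mem_map, forall_exists_index, and_imp, forall_apply_eq_imp_iff₂]
  rfl

theorem ptf_toInst {γ : Type} [Enc γ] {l : γ → List (ℕ × ℕ × ℕ)} (hl : PTf l) :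
    PTf (fun x => (⟨toInst (l x)⟩ : Coded (encodeInstance (ar := fun _ : Fin 1 => 3)) encodeInstance_inj)) := by
  have h1 : PTf (fun x => (l x).flatMap fun t => [(1 : Fin 3)] ++ ((List.replicate t.1 (0 : Fin 3) ++ [1]) ++
      ((List.replicate t.2.1 (0 : Fin 3) ++ [1]) ++ ((List.replicate t.2.2 (0 : Fin 3) ++ [1]) ++ [2])))) := by
    fun_prop
  refine h1.recode (i := fun c => c) (fun _ => rfl) (fun x => ?_)
  show enc (encodeInstance (toInst (l x))) = _
  congr 1
  unfold encodeInstance toInst
  rw [List.flatMap_def, List.map_map]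
  congr 1
  refine List.map_congr_left (fun t _ => ?_)
  simp [encodeConstraint, List.ofFn_succ]

/-- If not-all-equal 3-satisfiability is in P then P = NP. -/
theorem pEqNP_of_nae (h : Pool.Agent.Helper64.Canon.InP Pool.Agent.Helper64.Canon.NAE) : PEqNP := by
  classical
  rw [inP_inst_iff] at h
  rw [pEqNP_iff]
  intro L hL
  rw [inP_iff]
  obtain ⟨f, hf, hh⟩ := inNP_reduces hL
  have h1 := PTf.comp (g := fun x : Coded (encodeInstance (ar := fun _ : Fin 1 => 3)) encodeInstance_inj =>
    decide (x.val ∈ Pool.Agent.Helper64.Canon.NAE)) h (ptf_toInst hf)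
  refine h1.congr (fun u => ?_)
  rw [decide_eq_decide]
  rw [nae_toInst, hh]

end Pool.Agent.Helper53.CL
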