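import Pool.Agent.Helper53.CL.Csp

set_option autoImplicit false

/-! If P = NP then all finite constraint satisfaction problems are in P. -/

namespace Pool.Agent.Helper53.CL

open Pool.Agent.Helper58 Function
open Pool.Agent.Helper64.Canon (Instance CSP encodeInstance encodeConstraint)

/-! ### numbers in unary -/

def unStep (s : ℕ × List ℕ) (b : Bool) : ℕ × List ℕ :=
  bif b then (s.1 + 1, s.2) else (0, s.2 ++ [s.1])

/-- reads numbers written in unary -/
def un (w : List Bool) : List ℕ := (w.foldl unStep (0, [])).2

/-- writes numbers in unary -/
def wr (L : List ℕ) : List Bool := L.flatMap fun n => List.replicate n true ++ [false]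

lemma un_num (n c : ℕ) (u : List ℕ) :
    (List.replicate n true ++ [false]).foldl unStep (c, u) = (0, u ++ [c + n]) := by
  induction n generalizing c with
  | zero => simp [unStep]
  | succ n ih =>
    rw [List.replicate_succ, List.cons_append, List.foldl_cons]
    have : unStep (c, u) true = (c + 1, u) := rfl
    rw [this, ih]
    congr 3
    ring

lemma un_wr (L : List ℕ) : un (wr L) = L := by
  have key : ∀ (L u : List ℕ), (wr L).foldl unStep (0, u) = (0, u ++ L) := by
    intro L
    induction L with
    | nil => intro u; simp [wr]
    | cons n L ih =>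
      intro u
      have e : wr (n :: L) = (List.replicate n true ++ [false]) ++ wr L := by simp [wr]
      rw [e, List.foldl_append, un_num, ih]
      simp
  unfold un
  rw [key]
  simp

lemma wr_length {L : List ℕ} {d : ℕ} (h : ∀ n ∈ L, n < d) : (wr L).length ≤ L.length * d := by
  induction L with
  | nil => simp [wr]
  | cons n L ih =>
    have e : wr (n :: L) = (List.replicate n true ++ [false]) ++ wr L := by simp [wr]
    rw [e, List.length_append, List.length_append, List.length_replicate, List.length_cons,
      List.length_cons, List.length_nil]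
    have h1 := h n List.mem_cons_self
    have h2 := ih (fun m hm => h m (List.mem_cons_of_mem _ hm))
    have h3 : (L.length + 1) * d = L.length * d + d := by ring
    omega

theorem ptf_un {γ : Type} [Enc γ] {l : γ → List Bool} (hl : PTf l) : PTf (fun x => un (l x)) := by
  unfold un
  have h := ptf_foldl_add (γ := γ) (l := l) (init := fun _ => (0, ([] : List ℕ)))
    (step := fun _ s a => unStep s a) (K := fun _ => 10) hl (PTf.const _) ?_ (PB.const _) ?_
  · exact PTf.snd h
  · unfold unStep
    fun_prop
  · rintro x ⟨c, u⟩ a _
    unfold unStep
    cases a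
    · simp only [cond_false, sz_pair]
      have h1 := sz_append u [c]
      rw [sz_lcons, sz_lnil] at h1
      have := sz_zero
      have := sz_pos c
      omega
    · simp only [cond_true, sz_pair, sz_succ]
      omega

/-! ### words over three letters -/

def bits (l : List (Fin 3)) : List Bool := l.flatMap fun a => [(tb a).1, (tb a).2]

def ubStep (s : List Bool × List (Fin 3)) (b : Bool) : List Bool × List (Fin 3) :=
  lcase s.1 ([b], s.2) (fun c _ => ([], s.2 ++ [bif c then 1 else bif b then 2 else 0]))

def unbits (u : List Bool) : List (Fin 3) := (u.foldl ubStep ([], [])).2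

lemma unbits_bits (l : List (Fin 3)) : unbits (bits l) = l := by
  have key : ∀ (l v : List (Fin 3)), (bits l).foldl ubStep ([], v) = ([], v ++ l) := by
    intro l
    induction l with
    | nil => intro v; simp [bits]
    | cons a l ih =>
      intro v
      have e : bits (a :: l) = [(tb a).1, (tb a).2] ++ bits l := by simp [bits]
      rw [e, List.foldl_append]
      have e2 : [(tb a).1, (tb a).2].foldl ubStep ([], v) = ([], v ++ [a]) := by
        fin_cases a <;> rfl
      rw [e2, ih]
      simp
  unfold unbits
  rw [key]
  simp

lemma bits_length (l : List (Fin 3)) : (bits l).length = 2 * l.length := by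
  induction l with
  | nil => rfl
  | cons a l ih =>
    have e : bits (a :: l) = [(tb a).1, (tb a).2] ++ bits l := by simp [bits]
    rw [e, List.length_append, ih]
    simp; ring

theorem ptf_unbits {γ : Type} [Enc γ] {l : γ → List Bool} (hl : PTf l) :
    PTf (fun x => unbits (l x)) := by
  unfold unbits
  have h := ptf_foldl_add (γ := γ) (l := l) (init := fun _ => (([] : List Bool), ([] : List (Fin 3))))
    (step := fun _ s a => ubStep s a) (K := fun _ => 20) hl (PTf.const _) ?_ (PB.const _) ?_
  · exact PTf.snd h
  · unfold ubStep
    fun_prop
  · rintro x ⟨p, v⟩ a _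
    cases p with
    | nil =>
      have e : ubStep ([], v) a = ([a], v) := rfl
      rw [e, sz_pair, sz_pair, sz_lcons, sz_lnil]
      have := sz_bool a
      omega
    | cons c p =>
      have e : ubStep (c :: p, v) a = ([], v ++ [bif c then 1 else bif a then 2 else 0]) := rfl
      rw [e, sz_pair, sz_pair, sz_lnil]
      have h1 := sz_append v [(bif c then 1 else bif a then 2 else 0 : Fin 3)]
      rw [sz_lcons, sz_lnil] at h1
      have h2 : sz (bif c then 1 else bif a then 2 else 0 : Fin 3) ≤ 5 := by
        show sz ((bif c then 1 else bif a then 2 else 0 : Fin 3) : ℕ) ≤ 5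
        rw [sz_nat]
        have := (bif c then 1 else bif a then 2 else 0 : Fin 3).isLt
        omega
      have := sz_pos (c :: p)
      omega

theorem ptf_bits {γ : Type} [Enc γ] {l : γ → List (Fin 3)} (hl : PTf l) :
    PTf (fun x => bits (l x)) := by
  unfold bits tb
  fun_prop

/-! ### checking -/

/-- the list of constraints `J` is satisfied by the assignment `hl`; the allowed tuples are in `R` -/
def chk (R : List (List ℕ)) (J : List (List ℕ)) (hl : List ℕ) : Bool :=
  J.all fun c => R.any fun r => decide (r = lcase c [] (fun i vs => i :: vs.map (fun v => look hl v)))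

theorem ptf_chk {γ : Type} [Enc γ] (R : List (List ℕ)) {J : γ → List (List ℕ)} {hl : γ → List ℕ}
    (hJ : PTf J) (hh : PTf hl) : PTf (fun x => chk R (J x) (hl x)) := by
  unfold chk
  fun_prop

lemma lt_flatten_length {L : List ℕ} {n : ℕ} (h : n ∈ L) :
    n < ((L.map fun n => List.replicate n (0 : Fin 3) ++ [1]).flatten).length := by
  induction L with
  | nil => simp at h
  | cons m L ih =>
    rw [List.map_cons, List.flatten_cons, List.length_append, List.length_append,
      List.length_replicate, List.length_cons, List.length_nil]
    rcases List.mem_cons.1 h with rfl | h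
    · omega
    · have := ih h; omega

lemma lt_encode_length {s : ℕ} {ar : Fin s → ℕ} {I : Instance s ar}
    {x : Σ i : Fin s, (Fin (ar i) → ℕ)} (hx : x ∈ I) (j : Fin (ar x.1)) :
    x.2 j < (encodeInstance I).length := by
  induction I with
  | nil => simp at hx
  | cons y I ih =>
    have e : encodeInstance (y :: I) = encodeConstraint y ++ encodeInstance I := by
      simp [encodeInstance]
    rw [e, List.length_append]
    rcases List.mem_cons.1 hx with rfl | hx
    · have e2 : encodeConstraint x
          = ((cl x).map fun n => List.replicate n (0 : Fin 3) ++ [1]).flatten ++ [2] := by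
        unfold encodeConstraint cl
        rw [List.map_cons, List.flatten_cons]
        congr 2
        congr 1
        rw [List.map_ofFn]
        rfl
      rw [e2, List.length_append]
      have h1 : x.2 j ∈ cl x := by
        unfold cl
        exact List.mem_cons_of_mem _ (by rw [List.mem_ofFn]; exact ⟨j, rfl⟩)
      have := lt_flatten_length h1
      omega
    · have := ih hx; omega

/-- If P = NP then the CSP of every structure with a finite domain and finitely many relations is
in P. -/
theorem csp_inP (hP : PEqNP) {D : Type} [Finite D] {s : ℕ} {ar : Fin s → ℕ}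
    (rel : ∀ i, Set (Fin (ar i) → D)) : Pool.Agent.Helper64.Canon.InP (CSP rel) := by
  classical
  rw [inP_inst_iff]
  rcases isEmpty_or_nonempty D with hD | hD
  · refine (PTf.const false).congr (fun x => ?_)
    rw [decide_eq_false_iff_not]
    rintro ⟨h, _⟩
    exact hD.false (h 0)
  obtain ⟨d, ⟨e⟩⟩ := Finite.exists_equiv_fin D
  have hfin : Set.Finite {x : Σ i, (Fin (ar i) → D) | x.2 ∈ rel x.1} := Set.toFinite _
  let code : (Σ i, (Fin (ar i) → D)) → List ℕ := fun x =>
    (x.1 : ℕ) :: List.ofFn fun j => ((e (x.2 j) : Fin d) : ℕ)
  let R : List (List ℕ) := hfin.toFinset.toList.map code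
  have hR : ∀ r, r ∈ R ↔ ∃ x : Σ i, (Fin (ar i) → D), x.2 ∈ rel x.1 ∧ code x = r := by
    intro r
    simp only [R, List.mem_map, Finset.mem_toList, Set.Finite.mem_toFinset]
    rfl
  let V : List Bool × List Bool → Bool := fun q => chk R (parse (unbits q.1)) (un q.2)
  have hV : PTf V := ptf_chk R (ptf_parse (ptf_unbits (PTf.fst PTf.id))) (ptf_un (PTf.snd PTf.id))
  let L : Set (List Bool) := {u | ∃ w : List Bool, w.length ≤ (Polynomial.C d * Polynomial.X : Polynomial ℕ).eval u.length ∧
    V (u, w) = true}
  have hL : InNP L := by
    rw [inNP_iff]
    exact ⟨V, _, hV, fun u => Iff.rfl⟩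
  have hLP := (inP_iff L).1 ((pEqNP_iff.1 hP) L hL)
  have key : ∀ I : Instance s ar, bits (encodeInstance I) ∈ L ↔ I ∈ CSP rel := by
    intro I
    have hsat : ∀ hl : List ℕ, chk R (parse (encodeInstance I)) hl = true ↔
        ∀ x ∈ I, ((x.1 : ℕ) :: List.ofFn (fun j => look hl (x.2 j))) ∈ R := by
      intro hl
      rw [parse_encode]
      unfold chk
      rw [List.all_eq_true]
      simp only [List.mem_map, forall_exists_index, and_imp, forall_apply_eq_imp_iff₂]
      refine forall_congr' fun x => forall_congr' fun _ => ?_
      rw [List.any_eq_true]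
      have e1 : lcase (cl x) [] (fun i vs => i :: vs.map (fun v => look hl v))
          = (x.1 : ℕ) :: List.ofFn (fun j => look hl (x.2 j)) := by
        unfold cl lcase
        simp only [List.map_ofFn]
        rfl
      rw [e1]
      constructor
      · rintro ⟨r, hr, h⟩
        rw [decide_eq_true_eq] at h
        rw [← h]; exact hr
      · intro h
        exact ⟨_, h, by simp⟩
    constructor
    · rintro ⟨w, _, hw⟩
      have hw' : chk R (parse (encodeInstance I)) (un w) = true := by
        have : V (bits (encodeInstance I), w) = chk R (parse (unbits (bits (encodeInstance I)))) (un w) := rfl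
        rw [this, unbits_bits] at hw
        exact hw
      rw [hsat] at hw'
      refine ⟨fun v => if hlt : look (un w) v < d then e.symm ⟨_, hlt⟩ else Classical.arbitrary D, ?_⟩
      intro x hx
      have h1 := hw' x hx
      rw [hR] at h1
      obtain ⟨⟨i, t⟩, ht, hc⟩ := h1
      obtain ⟨i', t'⟩ := x
      simp only [code, List.cons.injEq] at hc
      have hi : i = i' := Fin.ext hc.1
      subst hi
      have h2 := List.ofFn_injective hc.2
      have h3 : (fun j => if hlt : look (un w) (t' j) < d then e.symm ⟨_, hlt⟩ else Classical.arbitrary D) = t := by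
        funext j
        have h4 : look (un w) (t' j) = ((e (t j) : Fin d) : ℕ) := (congrFun h2 j).symm
        have h5 : look (un w) (t' j) < d := by rw [h4]; exact (e (t j)).isLt
        rw [dif_pos h5]
        rw [Equiv.symm_apply_eq]
        exact Fin.ext h4
      show (fun j => if hlt : look (un w) (t' j) < d then e.symm ⟨_, hlt⟩ else Classical.arbitrary D) ∈ rel i
      rw [h3]
      exact ht
    · rintro ⟨h, hh⟩
      let hl : List ℕ := (List.range (encodeInstance I).length).map fun v => ((e (h v) : Fin d) : ℕ)
      refine ⟨wr hl, ?_, ?_⟩
      · have h1 : (wr hl).length ≤ hl.length * d := by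
          apply wr_length
          intro n hn
          simp only [hl, List.mem_map] at hn
          obtain ⟨v, _, rfl⟩ := hn
          exact (e (h v)).isLt
        have h2 : hl.length = (encodeInstance I).length := by simp [hl]
        rw [h2] at h1
        simp only [Polynomial.eval_mul, Polynomial.eval_C, Polynomial.eval_X, bits_length]
        refine h1.trans ?_
        rw [mul_comm d, mul_assoc, mul_comm 2]
        exact Nat.le_mul_of_pos_right _ (by norm_num)
      · show chk R (parse (unbits (bits (encodeInstance I)))) (un (wr hl)) = true
        rw [unbits_bits, un_wr, hsat]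
        intro x hx
        rw [hR]
        refine ⟨⟨x.1, fun j => h (x.2 j)⟩, hh x hx, ?_⟩
        show ((x.1 : ℕ) :: List.ofFn fun j => ((e (h (x.2 j)) : Fin d) : ℕ)) = _
        congr 1
        congr 1
        funext j
        rw [look_eq]
        have := lt_encode_length hx j
        simp only [hl]
        rw [List.getD_eq_getElem?_getD, List.getElem?_map, List.getElem?_range this]
        rfl
  have h1 : PTf (fun x : Coded (encodeInstance (ar := ar)) encodeInstance_inj =>
      bits (encodeInstance x.val)) := ptf_bits (PTf.of_enc_eq (fun _ => rfl))
  refine (PTf.comp hLP h1).congr (fun x => ?_)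
  rw [decide_eq_decide]
  exact (key x.val).symm

end Pool.Agent.Helper53.CL
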