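import Mathlib

set_option autoImplicit false

namespace Pool.Agent.Helper53.CL

/-- Pairs of words are written `u # w`. -/
def encPair (p : List Bool × List Bool) : List (Option Bool) :=
  p.1.map some ++ none :: p.2.map some

open Classical in
/-- The language `L` is in P: some Turing machine decides it in polynomial time. -/
def InP (L : Set (List Bool)) : Prop :=
  Nonempty (Turing.TM2ComputableInPolyTime (fun u : List Bool => u) Computability.encodeBool
    (fun u => decide (u ∈ L)))

/-- The language `L` is in NP: its words are those with a certificate of polynomial length,
checked by a Turing machine in polynomial time. -/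
def InNP (L : Set (List Bool)) : Prop :=
  ∃ (V : List Bool × List Bool → Bool) (p : Polynomial ℕ),
    Nonempty (Turing.TM2ComputableInPolyTime encPair Computability.encodeBool V) ∧
    ∀ u, u ∈ L ↔ ∃ w : List Bool, w.length ≤ p.eval u.length ∧ V (u, w) = true

/-- P = NP. -/
def PEqNP : Prop := {L | InP L} = {L | InNP L}

end Pool.Agent.Helper53.CL
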