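import Pool.Agent.Helper53.CL.Nae
import Pool.Agent.Helper53.CL.PNP

set_option autoImplicit false

/-! More polynomial time functions. -/

namespace Pool.Agent.Helper53.CL

open Pool.Agent.Helper58 Function

instance encOB : Enc (Option Bool) := ⟨fun o => enc (sy o), by
  intro a b h
  have h2 : sy a = sy b := Enc.inj h
  rcases a with _ | _ | _ <;> rcases b with _ | _ | _ <;> simp [sy] at h2 ⊢⟩

instance encFin (n : ℕ) : Enc (Fin n) := ⟨fun i => enc i.val, fun _ _ h => Fin.ext (Enc.inj h)⟩

section

variable {α β γ : Type} [Enc α] [Enc β] [Enc γ]

/-- folding when each step increases the size by a bounded amount -/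
theorem ptf_foldl_add {l : γ → List α} {init : γ → β} {step : γ → β → α → β} {K : γ → ℕ}
    (hl : PTf l) (hi : PTf init) (hs : PTf (fun p : γ × (β × α) => step p.1 p.2.1 p.2.2))
    (hK : PB K) (hb : ∀ x b, ∀ a ∈ l x, sz (step x b a) ≤ sz b + K x) :
    PTf (fun x => (l x).foldl (step x) (init x)) := by
  refine PTf.foldl (B := fun x => sz (init x) + sz (l x) * K x) hl hi hs
    (hi.sz_le.add (hl.sz_le.mul hK)) ?_
  intro x i
  have key : ∀ (m : List α) (b : β), (∀ a ∈ m, a ∈ l x) →
      sz (m.foldl (step x) b) ≤ sz b + m.length * K x := by
    intro m
    induction m with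
    | nil => intro b _; simp
    | cons a m ih =>
      intro b hm
      rw [List.foldl_cons]
      have h1 := ih (step x b a) (fun a' ha' => hm a' (List.mem_cons_of_mem _ ha'))
      have h2 := hb x b a (hm a List.mem_cons_self)
      have h3 : (a :: m).length * K x = m.length * K x + K x := by
        rw [List.length_cons]; ring
      omega
  refine (key _ _ (fun a ha => List.mem_of_mem_take ha)).trans ?_
  refine Nat.add_le_add_left (Nat.mul_le_mul_right _ ?_) _
  have h1 : ((l x).take i).length ≤ (l x).length := by
    rw [List.length_take]; exact Nat.min_le_right _ _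
  have h2 := length_lt_sz (l x)
  omega

/-- the head of a list, with a default value -/
def hd {α : Type} (l : List α) (d : α) : α := lcase l d (fun a _ => a)

@[fun_prop] theorem ptf_hd {l : γ → List α} {d : γ → α} (hl : PTf l) (hd' : PTf d) :
    PTf (fun x => hd (l x) (d x)) := by unfold hd; fun_prop

/-- the entry of a list at a place, with default `0` -/
def look (l : List ℕ) (v : ℕ) : ℕ := hd ((l.zipIdx.filter fun p => decide (p.2 = v)).map fun p => p.1) 0

@[fun_prop] theorem ptf_look {l : γ → List ℕ} {v : γ → ℕ} (hl : PTf l) (hv : PTf v) :
    PTf (fun x => look (l x) (v x)) := by unfold look; fun_prop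

lemma look_aux (l : List ℕ) (k v : ℕ) :
    hd (((l.zipIdx k).filter fun p => decide (p.2 = k + v)).map fun p => p.1) 0 = l.getD v 0 := by
  induction l generalizing k v with
  | nil => simp [hd, lcase]
  | cons a l ih =>
    rw [List.zipIdx_cons, List.filter_cons]
    cases v with
    | zero => simp [hd, lcase]
    | succ v =>
      have h1 : decide ((a, k).2 = k + (v + 1)) = false := by simp
      rw [h1, if_neg (by simp), show k + (v + 1) = (k + 1) + v by ring, ih (k + 1) v]
      simp

lemma look_eq (l : List ℕ) (v : ℕ) : look l v = l.getD v 0 := by
  have := look_aux l 0 v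
  rw [zero_add] at this
  exact this

end

/-! ### splitting a list of bits at the separator -/

/-- state: separator seen, first word, second word -/
def spStep (s : Bool × (List Bool × List Bool)) (a : Option Bool) : Bool × (List Bool × List Bool) :=
  if a = none then (true, s.2) else
    bif s.1 then (true, (s.2.1, s.2.2 ++ [a.getD false])) else (false, (s.2.1 ++ [a.getD false], s.2.2))

/-- from `u # w` to `(u, w)` -/
def split (l : List (Option Bool)) : List Bool × List Bool :=
  (l.foldl spStep (false, ([], []))).2

lemma split_aux1 (u v w : List Bool) :
    (u.map some).foldl spStep (false, (v, w)) = (false, (v ++ u, w)) := by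
  induction u generalizing v with
  | nil => simp
  | cons b u ih => simp [spStep, ih]

lemma split_aux2 (u v w : List Bool) :
    (u.map some).foldl spStep (true, (v, w)) = (true, (v, w ++ u)) := by
  induction u generalizing w with
  | nil => simp
  | cons b u ih => simp [spStep, ih]

lemma split_encPair (p : List Bool × List Bool) : split (encPair p) = p := by
  unfold split encPair
  rw [List.foldl_append, split_aux1, List.foldl_cons]
  have : spStep (false, ([] ++ p.1, [])) none = (true, (p.1, [])) := by simp [spStep]
  rw [this, split_aux2]
  simp

lemma encPair_inj : Injective encPair := fun p q h => by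
  rw [← split_encPair p, h, split_encPair]

theorem ptf_split {γ : Type} [Enc γ] {l : γ → List (Option Bool)} (hl : PTf l) :
    PTf (fun x => split (l x)) := by
  unfold split
  have hg : PTf (fun a : Option Bool => a.getD false) := PTf.ofFinite _
  have hn : PTf (fun a : Option Bool => decide (a = none)) := PTf.ofFinite _
  have h := ptf_foldl_add (γ := γ) (l := l) (init := fun _ => (false, (([] : List Bool), ([] : List Bool))))
    (step := fun _ s a => spStep s a) (K := fun _ => 10) hl (PTf.const _) ?_ (PB.const _) ?_
  · exact PTf.snd h
  · unfold spStep
    have h1 : PTf (fun p : γ × ((Bool × (List Bool × List Bool)) × Option Bool) => p.2.2.getD false) :=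
      PTf.comp hg (by fun_prop)
    have h2 : PTf (fun p : γ × ((Bool × (List Bool × List Bool)) × Option Bool) =>
        decide (p.2.2 = none)) := PTf.comp hn (by fun_prop)
    refine PTf.ite h2 (by fun_prop) ?_
    fun_prop
  · rintro x ⟨b, v, w⟩ a _
    unfold spStep
    have h3 : ∀ (v : List Bool) (c : Bool), sz (v ++ [c]) ≤ sz v + 4 := by
      intro v c
      have h4 := sz_append v [c]
      rw [sz_lcons, sz_lnil] at h4
      have := sz_bool c
      omega
    split_ifs
    · simp only [sz_pair, sz_true]
      have := sz_pos b
      omega
    · cases b
      · simp only [cond_false, sz_pair]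
        have := h3 v (a.getD false)
        omega
      · simp only [cond_true, sz_pair]
        have := h3 w (a.getD false)
        omega

end Pool.Agent.Helper53.CL
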