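import Mathlib
import Pool.Agent.Helper53.CL.PNP
import Pool.Agent.Helper64.CanonDefs

set_option autoImplicit false

namespace Pool.Agent.Helper53.CL

open Pool.Agent.Helper64.Canon

/-- The statement Q1: whenever `Γ` is a reduct with tractable CSP of a countable finitely bounded
ordered homogeneous Ramsey structure `D` whose finite signature has maximal arity `r`, there is a
tuple `c` of elements of `D` such that the type clone of the polymorphism clone of `Γ` over `c`
corresponds to a tractable CSP. -/
def Q1 : Prop :=
  ∀ (L : FirstOrder.Language.{0, 0}) (D : Type) [L.Structure D] (r : ℕ) (Γ : Set (Rel D)),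
    IsTemplate L D → IsMaxArity L r → IsReduct L Γ → Tractable Γ →
      ∃ (n : ℕ) (c : Fin n → D), TypeCloneTractable L c r Γ

end Pool.Agent.Helper53.CL
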