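import Pool.Agent.Helper53.CL.Types
import Pool.Agent.Helper53.CL.Q1Defs
import Pool.Agent.Helper64.CanonHard
import Pool.Agent.Helper64.CanonMachine
import Pool.Agent.Helper64.CanonTemplate

set_option autoImplicit false

namespace Pool.Agent.Helper53.CL

open FirstOrder FirstOrder.Language
open Pool.Agent.Helper64.Canon

attribute [local instance] ratStructure ratOrdered

/-- The relation `≠` on the rationals. -/
def neRel : Rel ℚ := ⟨2, {t | t 0 ≠ t 1}⟩

theorem reduct_ne : IsReduct Language.order ({neRel} : Set (Rel ℚ)) := by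
  intro ρ hρ
  rw [Set.mem_singleton_iff] at hρ
  subst hρ
  show (∅ : Set ℚ).Definable Language.order {t : Fin 2 → ℚ | t 0 ≠ t 1}
  refine ⟨∼(Term.equal (Term.var (0 : Fin 2)) (Term.var (1 : Fin 2))), ?_⟩
  ext t
  simp [Formula.realize_not, Formula.realize_equal]

theorem tractable_ne : Tractable ({neRel} : Set (Rel ℚ)) := by
  intro s ar rel hrel
  have har : ar = fun _ => 2 := by
    funext i
    have := hrel i
    rw [Set.mem_singleton_iff] at this
    exact congrArg Sigma.fst this
  subst har
  have hr : rel = fun _ => {t | t 0 ≠ t 1} := by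
    funext i
    have := hrel i
    rw [Set.mem_singleton_iff] at this
    exact eq_of_heq (Sigma.mk.inj this).2
  subst hr
  have h : CSP (s := s) (ar := fun _ => 2) (fun _ => {t : Fin 2 → ℚ | t 0 ≠ t 1}) =
      {I : Instance s fun _ => 2 | ∀ x ∈ I, x.2 0 ≠ x.2 1} := by
    ext I
    constructor
    · rintro ⟨h, hh⟩ x hx heq
      apply hh x hx
      show h (x.2 0) = h (x.2 1)
      rw [heq]
    · intro hI
      refine ⟨fun v => (v : ℚ), fun x hx => ?_⟩
      show ((x.2 0 : ℕ) : ℚ) ≠ ((x.2 1 : ℕ) : ℚ)
      exact fun heq => hI x hx (Nat.cast_injective heq)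
  rw [h]
  exact inP_ne

theorem q1_iff : Q1 ↔ PEqNP := by
  constructor
  · intro h
    obtain ⟨n, c, hc⟩ := h Language.order ℚ 2 {neRel} template_rat maxArity_order reduct_ne
      tractable_ne
    exact pEqNP_of_nae (nae_of_typeCloneTractable c (Or.inl (Set.mem_singleton _)) hc)
  · intro hP L D _ r Γ hD _ _ _
    exact ⟨0, Fin.elim0, typeCloneTractable_of hP hD _ r Γ⟩

end Pool.Agent.Helper53.CL
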