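import Pool.Agent.Helper53.CL.Asm

set_option autoImplicit false

/-! The tableau of a run as a set of clauses with at most three literals. -/

namespace Pool.Agent.Helper53.CL

open Pool.Agent.Helper58 Function

/-- Atoms: `(t, 0, 0, q)` says that at time `t` the program is at address `q`; `(t, k + 1, i, a)`
says that at time `t` the entry number `i` of the stack `k` is `a` (where `0` means that there is
no such entry, `1` is `false`, `2` is `true`). -/
abbrev Atom := ℕ × (ℕ × (ℕ × ℕ))

/-- literals -/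
abbrev Lit := Atom × Bool

/-- clauses with three literals -/
abbrev Cl := Lit × (Lit × Lit)

def ctl (t q : ℕ) : Atom := (t, 0, 0, q)
def cell (t k i a : ℕ) : Atom := (t, k + 1, i, a)

def unit (p : Atom) : Cl := ((p, true), (p, true), (p, true))
def nunit (p : Atom) : Cl := ((p, false), (p, false), (p, false))
def or2 (p q : Atom) : Cl := ((p, true), (q, true), (q, true))
def imp1 (p c : Atom) : Cl := ((p, false), (p, false), (c, true))
def imp2 (p q c : Atom) : Cl := ((p, false), (q, false), (c, true))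

/-- `Y` satisfies the clause -/
def Sat (Y : Atom → Bool) (c : Cl) : Prop :=
  Y c.1.1 = c.1.2 ∨ Y c.2.1.1 = c.2.1.2 ∨ Y c.2.2.1 = c.2.2.2

lemma sat_unit {Y : Atom → Bool} {p : Atom} : Sat Y (unit p) ↔ Y p = true := by
  simp [Sat, unit]
lemma sat_nunit {Y : Atom → Bool} {p : Atom} : Sat Y (nunit p) ↔ ¬ Y p = true := by
  simp [Sat, nunit]
lemma sat_or2 {Y : Atom → Bool} {p q : Atom} : Sat Y (or2 p q) ↔ (Y p = true ∨ Y q = true) := by
  simp [Sat, or2]
lemma sat_imp1 {Y : Atom → Bool} {p c : Atom} : Sat Y (imp1 p c) ↔ (Y p = true → Y c = true) := by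
  simp only [Sat, imp1]
  cases Y p <;> simp
lemma sat_imp2 {Y : Atom → Bool} {p q c : Atom} :
    Sat Y (imp2 p q c) ↔ (Y p = true → Y q = true → Y c = true) := by
  simp only [Sat, imp2]
  cases Y p <;> cases Y q <;> simp

/-- symbols as numbers -/
def sy : Option Bool → ℕ
  | none => 0
  | some false => 1
  | some true => 2

/-- for all symbols: an entry of stack `k` is at place `i'` at the next time if it is at place `i` now -/
def mvc (t q k i i' : ℕ) : List Cl :=
  [imp2 (ctl t q) (cell t k i 0) (cell (t + 1) k i' 0),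
   imp2 (ctl t q) (cell t k i 1) (cell (t + 1) k i' 1),
   imp2 (ctl t q) (cell t k i 2) (cell (t + 1) k i' 2)]

/-- all stacks but `k₀` are unchanged -/
def cpys (t q N L k₀ : ℕ) : List Cl :=
  (List.range N).flatMap fun k => if k = k₀ then [] else (List.range L).flatMap fun i => mvc t q k i i

/-- the clauses of an instruction at address `q` and time `t`; there are `N` stacks -/
def rules (N : ℕ) (t q L : ℕ) : Ins → List Cl
  | Ins.jmp q' => imp1 (ctl t q) (ctl (t + 1) q') :: cpys t q N L N
  | Ins.push k b q' => imp1 (ctl t q) (ctl (t + 1) q') ::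
      imp1 (ctl t q) (cell (t + 1) k 0 (sy (some b))) ::
      (((List.range L).flatMap fun i => mvc t q k i (i + 1)) ++ cpys t q N L k)
  | Ins.pop k e f g => imp2 (ctl t q) (cell t k 0 0) (ctl (t + 1) e) ::
      imp2 (ctl t q) (cell t k 0 1) (ctl (t + 1) f) ::
      imp2 (ctl t q) (cell t k 0 2) (ctl (t + 1) g) ::
      (((List.range L).flatMap fun i => mvc t q k (i + 1) i) ++ cpys t q N L k)

lemma mem_mvc {t q k i i' : ℕ} {c : Cl} :
    c ∈ mvc t q k i i' ↔ ∃ o : Option Bool, c = imp2 (ctl t q) (cell t k i (sy o)) (cell (t + 1) k i' (sy o)) := by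
  simp only [mvc, List.mem_cons, List.not_mem_nil, or_false]
  constructor
  · rintro (h | h | h)
    · exact ⟨none, h⟩
    · exact ⟨some false, h⟩
    · exact ⟨some true, h⟩
  · rintro ⟨_ | _ | _, h⟩
    · exact Or.inl h
    · exact Or.inr (Or.inl h)
    · exact Or.inr (Or.inr h)

lemma mem_cpys {t q N L k₀ : ℕ} {c : Cl} :
    c ∈ cpys t q N L k₀ ↔ ∃ k < N, k ≠ k₀ ∧ ∃ i < L, ∃ o : Option Bool,
      c = imp2 (ctl t q) (cell t k i (sy o)) (cell (t + 1) k i (sy o)) := by
  simp only [cpys, List.mem_flatMap, List.mem_range]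
  constructor
  · rintro ⟨k, hk, h⟩
    by_cases hk0 : k = k₀
    · simp [hk0] at h
    · rw [if_neg hk0] at h
      simp only [List.mem_flatMap, List.mem_range, mem_mvc] at h
      obtain ⟨i, hi, o, ho⟩ := h
      exact ⟨k, hk, hk0, i, hi, o, ho⟩
  · rintro ⟨k, hk, hk0, i, hi, o, ho⟩
    refine ⟨k, hk, ?_⟩
    rw [if_neg hk0]
    simp only [List.mem_flatMap, List.mem_range, mem_mvc]
    exact ⟨i, hi, o, ho⟩

/-- the facts about a configuration at time `t` hold under `Y` -/
def Facts (Y : Atom → Bool) (N L t : ℕ) (c : ℕ × Stk) : Prop :=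
  Y (ctl t c.1) = true ∧ ∀ k < N, ∀ i, i + t < L → Y (cell t k i (sy (c.2 k)[i]?)) = true

lemma facts_step {Y : Atom → Bool} {N L t : ℕ} {P : List Ins} {c : ℕ × Stk} {B : ℕ}
    (hc : Facts Y N L t c) (hB : (ins P c.1).Bd B N) (hL : t + 1 < L)
    (hr : ∀ r ∈ rules N t c.1 L (ins P c.1), Sat Y r) : Facts Y N L (t + 1) (step P c) := by
  obtain ⟨q, s⟩ := c
  obtain ⟨h1, h2⟩ := hc
  simp only at h1 h2 hB hr
  unfold step
  simp only
  -- copying
  have hcp : ∀ k₀, (∀ c ∈ cpys t q N L k₀, Sat Y c) → ∀ k < N, k ≠ k₀ → ∀ i, i + t < L →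
      Y (cell (t + 1) k i (sy (s k)[i]?)) = true := by
    intro k₀ h k hk hk0 i hi
    have h3 := h _ (mem_cpys.2 ⟨k, hk, hk0, i, by omega, (s k)[i]?, rfl⟩)
    rw [sat_imp2] at h3
    exact h3 h1 (h2 k hk i hi)
  cases hins : ins P q with
  | jmp q' =>
    rw [hins] at hr hB
    simp only [rules, List.mem_cons, forall_eq_or_imp] at hr
    refine ⟨sat_imp1.1 hr.1 h1, ?_⟩
    intro k hk i hi
    exact hcp N hr.2 k hk (by omega) i (by omega)
  | push k b q' =>
    rw [hins] at hr hB
    simp only [rules, List.mem_cons, forall_eq_or_imp, List.mem_append] at hr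
    obtain ⟨r1, r2, r3⟩ := hr
    refine ⟨sat_imp1.1 r1 h1, ?_⟩
    intro j hj i hi
    simp only [stepI]
    by_cases hjk : j = k
    · subst hjk
      rw [update_self]
      cases i with
      | zero => exact sat_imp1.1 r2 h1
      | succ i =>
        have h3 := r3 (imp2 (ctl t q) (cell t j i (sy (s j)[i]?)) (cell (t + 1) j (i + 1) (sy (s j)[i]?)))
          (Or.inl (by
            simp only [List.mem_flatMap, List.mem_range, mem_mvc]
            exact ⟨i, by omega, (s j)[i]?, rfl⟩))
        rw [sat_imp2] at h3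
        simp only [List.getElem?_cons_succ]
        exact h3 h1 (h2 j hj i (by omega))
    · rw [update_of_ne hjk]
      exact hcp k (fun c hc => r3 c (Or.inr hc)) j hj hjk i (by omega)
  | pop k e f g =>
    rw [hins] at hr hB
    simp only [rules, List.mem_cons, forall_eq_or_imp, List.mem_append] at hr
    obtain ⟨r0, r1, r2, r3⟩ := hr
    have hk : k < N := hB.1
    have hsh : ∀ i, i + (t + 1) < L → Y (cell (t + 1) k i (sy (s k)[i + 1]?)) = true := by
      intro i hi
      have h3 := r3 (imp2 (ctl t q) (cell t k (i + 1) (sy (s k)[i + 1]?)) (cell (t + 1) k i (sy (s k)[i + 1]?)))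
          (Or.inl (by
            simp only [List.mem_flatMap, List.mem_range, mem_mvc]
            exact ⟨i, by omega, (s k)[i + 1]?, rfl⟩))
      rw [sat_imp2] at h3
      exact h3 h1 (h2 k hk (i + 1) (by omega))
    have h0 := h2 k hk 0 (by omega)
    rcases hsk : s k with _ | ⟨b, l⟩
    · simp only [stepI, hsk]
      rw [hsk] at h0
      refine ⟨sat_imp2.1 r0 h1 h0, ?_⟩
      intro j hj i hi
      by_cases hjk : j = k
      · subst hjk
        have := hsh i hi
        simp only [hsk] at this ⊢
        simpa using this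
      · exact hcp k (fun c hc => r3 c (Or.inr hc)) j hj hjk i (by omega)
    · have hst : ∀ j < N, ∀ i, i + (t + 1) < L →
          Y (cell (t + 1) j i (sy ((update s k l) j)[i]?)) = true := by
        intro j hj i hi
        by_cases hjk : j = k
        · subst hjk
          have := hsh i hi
          rw [update_self]
          simp only [hsk, List.getElem?_cons_succ] at this
          exact this
        · rw [update_of_ne hjk]
          exact hcp k (fun c hc => r3 c (Or.inr hc)) j hj hjk i (by omega)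
      rw [hsk] at h0
      cases b
      · simp only [stepI, hsk]
        exact ⟨sat_imp2.1 r1 h1 h0, hst⟩
      · simp only [stepI, hsk]
        exact ⟨sat_imp2.1 r2 h1 h0, hst⟩

/-- the assignment given by a run -/
def Yr (c : ℕ → ℕ × Stk) : Atom → Bool
  | (t, 0, _, q) => decide ((c t).1 = q)
  | (t, k + 1, i, a) => decide (sy ((c t).2 k)[i]? = a)

lemma Yr_ctl (c : ℕ → ℕ × Stk) (t q : ℕ) : Yr c (ctl t q) = true ↔ (c t).1 = q := by
  simp [Yr, ctl]
lemma Yr_cell (c : ℕ → ℕ × Stk) (t k i a : ℕ) :
    Yr c (cell t k i a) = true ↔ sy ((c t).2 k)[i]? = a := by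
  simp [Yr, cell]

lemma rules_run {P : List Ins} {c : ℕ → ℕ × Stk} (hc : ∀ t, c (t + 1) = step P (c t)) (N t q L : ℕ) :
    ∀ r ∈ rules N t q L (ins P q), Sat (Yr c) r := by
  have hcp : ∀ k₀, ((c t).1 = q → ∀ k, k ≠ k₀ → (c (t + 1)).2 k = (c t).2 k) →
      ∀ r ∈ cpys t q N L k₀, Sat (Yr c) r := by
    intro k₀ h r hr
    obtain ⟨k, hk, hk0, i, hi, o, rfl⟩ := mem_cpys.1 hr
    rw [sat_imp2, Yr_ctl, Yr_cell, Yr_cell]
    intro h1 h2
    rw [h h1 k hk0]; exact h2
  have hst : (c t).1 = q → c (t + 1) = stepI (ins P q) (c t).2 := by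
    intro h
    rw [hc, step, h]
  cases hins : ins P q with
  | jmp q' =>
    rw [hins] at hst
    simp only [rules, List.mem_cons, forall_eq_or_imp]
    refine ⟨?_, hcp N ?_⟩
    · rw [sat_imp1, Yr_ctl, Yr_ctl]
      intro h; rw [hst h]; rfl
    · intro h k _; rw [hst h]; rfl
  | push k b q' =>
    rw [hins] at hst
    simp only [rules, List.mem_cons, forall_eq_or_imp, List.mem_append]
    refine ⟨?_, ?_, ?_⟩
    · rw [sat_imp1, Yr_ctl, Yr_ctl]
      intro h; rw [hst h]; rfl
    · rw [sat_imp1, Yr_ctl, Yr_cell]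
      intro h; rw [hst h]
      simp only [stepI, update_self, List.getElem?_cons_zero]
    · rintro r (hr | hr)
      · simp only [List.mem_flatMap, List.mem_range, mem_mvc] at hr
        obtain ⟨i, hi, o, rfl⟩ := hr
        rw [sat_imp2, Yr_ctl, Yr_cell, Yr_cell]
        intro h1 h2
        rw [hst h1]
        simp only [stepI, update_self, List.getElem?_cons_succ]
        exact h2
      · refine hcp k ?_ r hr
        intro h j hj; rw [hst h]
        simp only [stepI]
        rw [update_of_ne hj]
  | pop k e f g =>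
    rw [hins] at hst
    simp only [rules, List.mem_cons, forall_eq_or_imp, List.mem_append]
    have key : (c t).1 = q → ((c (t + 1)).2 k = ((c t).2 k).tail ∧
        (∀ j, j ≠ k → (c (t + 1)).2 j = (c t).2 j) ∧
        (c (t + 1)).1 = match ((c t).2 k)[0]? with | none => e | some false => f | some true => g) := by
      intro h
      rw [hst h]
      rcases hs : (c t).2 k with _ | ⟨b, l⟩
      · simp [stepI, hs]
      · cases b <;> simp only [stepI, hs, update_self, List.tail_cons, List.getElem?_cons_zero] <;>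
        exact ⟨trivial, fun j hj => update_of_ne hj _ _, trivial⟩
    refine ⟨?_, ?_, ?_, ?_⟩
    · rw [sat_imp2, Yr_ctl, Yr_ctl, Yr_cell]
      intro h h0
      rw [(key h).2.2]
      rcases h1 : ((c t).2 k)[0]? with _ | _ | _ <;> rw [h1] at h0 <;> simp [sy] at h0 ⊢
    · rw [sat_imp2, Yr_ctl, Yr_ctl, Yr_cell]
      intro h h0
      rw [(key h).2.2]
      rcases h1 : ((c t).2 k)[0]? with _ | _ | _ <;> rw [h1] at h0 <;> simp [sy] at h0 ⊢
    · rw [sat_imp2, Yr_ctl, Yr_ctl, Yr_cell]
      intro h h0
      rw [(key h).2.2]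
      rcases h1 : ((c t).2 k)[0]? with _ | _ | _ <;> rw [h1] at h0 <;> simp [sy] at h0 ⊢
    · rintro r (hr | hr)
      · simp only [List.mem_flatMap, List.mem_range, mem_mvc] at hr
        obtain ⟨i, hi, o, rfl⟩ := hr
        rw [sat_imp2, Yr_ctl, Yr_cell, Yr_cell]
        intro h1 h2
        rw [(key h1).1, List.getElem?_tail]
        exact h2
      · exact hcp k (fun h => (key h).2.1) r hr

end Pool.Agent.Helper53.CL
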