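import Pool.Agent.Helper53.CL.CspP

set_option autoImplicit false

/-! Homogeneous structures in a finite relational signature have finitely many types. -/

namespace Pool.Agent.Helper53.CL

open FirstOrder FirstOrder.Language
open Pool.Agent.Helper64.Canon

theorem exists_aut {L : FirstOrder.Language.{0, 0}} [L.IsRelational] {D : Type} [L.Structure D]
    (hU : L.IsUltrahomogeneous D) {ι : Type} [Finite ι] (u v : ι → D)
    (heq : ∀ i j, u i = u j ↔ v i = v j)
    (hrel : ∀ (n : ℕ) (R : L.Relations n) (f : Fin n → ι),
      Structure.RelMap R (u ∘ f) ↔ Structure.RelMap R (v ∘ f)) :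
    ∃ g : D ≃[L] D, ∀ i, g (u i) = v i := by
  classical
  let S : L.Substructure D := Substructure.closure L (Set.range u)
  have hS : ∀ x, x ∈ S ↔ x ∈ Set.range u := by
    intro x
    exact Substructure.mem_closure_iff_of_isRelational L (Set.range u) x
  have hSfg : S.FG := Substructure.fg_closure (Set.finite_range u)
  choose p hp using fun x : S => (hS x.1).1 x.2
  let f : S ↪[L] D :=
    { toFun := fun x => v (p x)
      inj' := by
        intro x y hxy
        have h1 : v (p x) = v (p y) := hxy
        apply Subtype.ext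
        rw [← hp x, ← hp y]
        exact (heq _ _).2 h1
      map_fun' := by
        intro n F
        exact isEmptyElim F
      map_rel' := by
        intro n R x
        have h1 : Structure.RelMap R x ↔ Structure.RelMap R (u ∘ (fun k => p (x k))) := by
          have h2 : (u ∘ fun k => p (x k)) = fun k => ((x k : S) : D) := by
            funext k
            exact hp (x k)
          rw [h2]
          rfl
        rw [h1, hrel]
        rfl }
  obtain ⟨g, hg⟩ := hU S hSfg f
  refine ⟨g, fun i => ?_⟩
  have hi : u i ∈ S := (hS _).2 ⟨i, rfl⟩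
  have h1 : f ⟨u i, hi⟩ = g (u i) := by
    rw [hg]
    rfl
  rw [← h1]
  show v (p ⟨u i, hi⟩) = v i
  have h2 := hp ⟨u i, hi⟩
  simp only at h2
  exact (heq _ _).1 h2

theorem finite_typeSet {L : FirstOrder.Language.{0, 0}} {D : Type} [L.Structure D]
    (hD : IsTemplate L D) {n : ℕ} (c : Fin n → D) (m : ℕ) : Finite (TypeSet L c m) := by
  obtain ⟨h1, h2, -, hU, -⟩ := hD
  have := h1
  have := h2
  let Pat : Type := ((Fin m ⊕ Fin n) → (Fin m ⊕ Fin n) → Prop) ×
    (∀ R : (Σ n, L.Relations n), (Fin R.1 → (Fin m ⊕ Fin n)) → Prop)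
  let pat : (Fin m → D) → Pat := fun a =>
    (fun i j => Sum.elim a c i = Sum.elim a c j, fun R f => Structure.RelMap R.2 (Sum.elim a c ∘ f))
  have : Finite Pat := by
    have : Finite ((Fin m ⊕ Fin n) → (Fin m ⊕ Fin n) → Prop) := inferInstance
    have : Finite (∀ R : (Σ n, L.Relations n), (Fin R.1 → (Fin m ⊕ Fin n)) → Prop) := inferInstance
    exact inferInstanceAs (Finite (_ × _))
  refine Finite.of_injective (fun q : TypeSet L c m => pat q.out) ?_
  intro q q' h
  have h' : pat q.out = pat q'.out := h
  have h3 := congrArg Prod.fst h'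
  have h4 := congrArg Prod.snd h'
  obtain ⟨g, hg⟩ := exists_aut hU (Sum.elim q.out c) (Sum.elim q'.out c)
    (fun i j => iff_of_eq (congrFun (congrFun h3 i) j))
    (fun k R f => iff_of_eq (congrFun (congrFun h4 ⟨k, R⟩) f))
  have h5 : SameType L c q.out q'.out := by
    intro φ
    have h6 : (Sum.elim q'.out c : Fin m ⊕ Fin n → D) = g ∘ Sum.elim q.out c := by
      funext i
      exact (hg i).symm
    rw [h6]
    exact (StrongHomClass.realize_formula g φ).symm
  rw [← Quotient.out_eq q, ← Quotient.out_eq q']
  exact Quotient.sound h5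

/-- If P = NP then every type clone of every reduct of every template corresponds to a tractable
CSP. -/
theorem typeCloneTractable_of (hP : PEqNP) {L : FirstOrder.Language.{0, 0}} {D : Type}
    [L.Structure D] (hD : IsTemplate L D) {n : ℕ} (c : Fin n → D) (r : ℕ) (Γ : Set (Rel D)) :
    TypeCloneTractable L c r Γ := by
  intro s ar rel _
  have := finite_typeSet hD c r
  exact csp_inP hP rel

end Pool.Agent.Helper53.CL
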